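import Pool.Agent.H759.QP.Sum
import Pool.Agent.H759.KB.Final
import Pool.Graph.R_pool_sql_team_seeded_c8625f6e.K4H4.SY.Vol4
import Pool.Graph.R_seed8.Y79.CG.Rhot2

/-!
The final estimates: lower bound of the Turaev-Viro invariants, bounds of the volume, upper bound.
-/

set_option autoImplicit false

namespace Pool.Agent.H759.QP

open Finset Filter
open Pool.Agent.Y482.CW (tvw half)
open Pool.Agent.R807.TQ (wl rate)
open Pool.Agent.R807.IN (hinges hV chg Hinge)
open GapVol (lob)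
open scoped Real Topology

noncomputable section

lemma aw_eq (P : List (ℕ × ℕ)) : aw P = Pool.Agent.K4H4.SY.pr P := rfl

/-- **Lower bound of the invariants for all large roots.** -/
theorem tv_final {A : ℕ} {P : List (ℕ × ℕ)} (hP : P ≠ [])
    (h : ∀ p ∈ P, (1 ≤ p.1 ∧ p.1 ≤ A) ∧ 1 ≤ p.2 ∧ p.2 ≤ A) (j : ℤ) {r : ℕ} (hr : Odd r)
    (hN : 10 ^ 8 * A ^ 2 ≤ r) :
    (2 : ℝ) ^ P.length ≤ DD P ∧ Real.exp (Real.log (DD P) * (r / (250000 * A))) ≤
      tvw (half (2 * j) ++ wl (aw P)) r := by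
  have hA : 1 ≤ A := by
    obtain ⟨p, P', rfl⟩ := List.exists_cons_of_ne_nil hP
    have := h p (by simp)
    omega
  have hD2 := DD_ge (P := P) (fun p hp => ⟨(h p hp).1.1, (h p hp).2.1⟩)
  refine ⟨hD2, ?_⟩
  obtain ⟨M, hM⟩ := hr
  have hk1 : 1 ≤ P.length := List.length_pos_of_ne_nil hP
  have hk1' : (1 : ℝ) ≤ P.length := by exact_mod_cast hk1
  have hA' : (1 : ℝ) ≤ A := by exact_mod_cast hA
  have hN' : (10 : ℝ) ^ 8 * A ^ 2 ≤ r := by exact_mod_cast hN
  have hrpos : (0 : ℝ) < r := by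
    have : (0 : ℝ) < 10 ^ 8 * (A : ℝ) ^ 2 := by positivity
    linarith
  have hrM : (r : ℝ) = 2 * M + 1 := by rw [hM]; push_cast; ring
  have hl2 := Real.log_two_gt_d9
  have hl2' := Real.log_two_lt_d9
  have hDpos : 0 < DD P := lt_of_lt_of_le (by positivity) hD2
  set L := Real.log (DD P) with hL
  have hLk : P.length * Real.log 2 ≤ L := by
    rw [hL, ← Real.log_pow]
    exact Real.log_le_log (by positivity) hD2
  have hL2 : Real.log 2 ≤ L := by nlinarith
  set x : ℝ := r / (413800 * A) with hx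
  have hxr : x * (413800 * A) = r := by
    rw [hx]
    field_simp
  have hx241 : 241 ≤ x := by
    rw [hx, le_div_iff₀ (by positivity)]
    calc 241 * (413800 * (A : ℝ)) ≤ 10 ^ 8 * (A : ℝ) ^ 2 := by nlinarith
      _ ≤ r := hN'
  obtain ⟨n, hn⟩ : ∃ n : ℕ, ⌊x⌋₊ = n + 1 := by
    refine ⟨⌊x⌋₊ - 1, ?_⟩
    have : 1 ≤ ⌊x⌋₊ := Nat.le_floor (by push_cast; linarith)
    omega
  have hn1 : (n : ℝ) + 1 ≤ x := by
    have := Nat.floor_le (show 0 ≤ x by linarith)
    rw [hn] at this
    push_cast at this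
    exact this
  have hn2 : x < (n : ℝ) + 2 := by
    have := Nat.lt_floor_add_one x
    rw [hn] at this
    push_cast at this
    linarith
  have hn3 : 1 ≤ n := by
    have : (0 : ℝ) < n := by linarith
    exact_mod_cast this
  have hMn : 413800 * ((n : ℝ) + 1) * A ≤ 2 * M + 1 := by
    rw [← hrM, ← hxr]
    calc 413800 * ((n : ℝ) + 1) * A = ((n : ℝ) + 1) * (413800 * A) := by ring
      _ ≤ x * (413800 * A) := by gcongr
  have h1 := tv_lower hA hP h j hn3 hMn
  rw [← hrM, ← hM] at h1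
  have h2 : DD P ^ n = Real.exp (n * L) := by
    rw [Real.exp_nat_mul, hL, Real.exp_log hDpos]
  rw [h2, ← Real.exp_add, ← Real.exp_nat_mul] at h1
  have h3 := KB.exp_four hA hN
  have h4 : (r : ℝ) ^ 2 ≤ Real.exp (Real.log 2 * (r / (1400000 * A))) := by
    apply le_of_sq_le_sq _ (Real.exp_pos _).le
    rw [← Real.exp_nat_mul]
    calc ((r : ℝ) ^ 2) ^ 2 = r ^ 4 := by ring
      _ ≤ _ := h3
      _ = _ := by
        congr 1
        push_cast
        field_simp
        norm_num
  have h5 : Real.exp (L * (r / (250000 * A))) * Real.exp (Real.log 2 * (r / (1400000 * A))) ≤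
      Real.exp ((2 : ℕ) * (n * L + -(P.length * ((n : ℝ) + 1) / 1500))) := by
    rw [← Real.exp_add]
    apply Real.exp_le_exp.2
    have e1 : (r : ℝ) / (250000 * A) = 4138 / 2500 * x := by
      rw [← hxr]
      field_simp
      norm_num
    have e2 : (r : ℝ) / (1400000 * A) = 4138 / 14000 * x := by
      rw [← hxr]
      field_simp
      norm_num
    rw [e1, e2]
    push_cast
    have hx0 : 0 ≤ x := by linarith
    have k1 : Real.log 2 * (4138 / 14000 * x) ≤ L * (4138 / 14000 * x) := by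
      apply mul_le_mul_of_nonneg_right hL2
      positivity
    have k2 : (P.length : ℝ) ≤ 3 / 2 * L := by nlinarith
    have k3 : (P.length : ℝ) * ((n : ℝ) + 1) / 1500 ≤ L * ((n : ℝ) + 1) / 1000 := by
      have : (P.length : ℝ) * ((n : ℝ) + 1) ≤ 3 / 2 * L * ((n : ℝ) + 1) := by gcongr
      linarith
    have k4 : L * (x - 2) ≤ L * n := by
      apply mul_le_mul_of_nonneg_left _ (by linarith)
      linarith
    have k5 : L * ((n : ℝ) + 1) ≤ L * x := by
      apply mul_le_mul_of_nonneg_left _ (by linarith)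
      linarith
    have k6 : 241 * L ≤ L * x := by
      rw [mul_comm]
      apply mul_le_mul_of_nonneg_left hx241 (by linarith)
    nlinarith
  have h6 : Real.exp (L * (r / (250000 * A))) * r ^ 2 ≤
      r ^ 2 * tvw (half (2 * j) ++ wl (aw P)) r := by
    calc Real.exp (L * (r / (250000 * A))) * r ^ 2
        ≤ Real.exp (L * (r / (250000 * A))) * Real.exp (Real.log 2 * (r / (1400000 * A))) := by
          gcongr
      _ ≤ _ := h5
      _ ≤ _ := h1
  have hr2 : (0 : ℝ) < (r : ℝ) ^ 2 := by positivity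
  rw [mul_comm] at h6
  exact le_of_mul_le_mul_left h6 hr2

/-! ### The volume -/

lemma chg_pr (P : List (ℕ × ℕ)) (h : P ≠ []) :
    chg (aw P) + 1 ≤ 2 * P.length := by
  induction P with
  | nil => exact absurd rfl h
  | cons p P ih =>
    rw [aw_eq, Pool.Agent.K4H4.SY.pr_cons]
    have h1 := Pool.Agent.K4H4.SY.V3.chg_app (List.replicate p.1 true)
      (List.replicate p.2 false ++ Pool.Agent.K4H4.SY.pr P)
    rw [Pool.Agent.K4H4.SY.V3.chg_rep] at h1
    by_cases hP : P = []
    · subst hP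
      have e : Pool.Agent.K4H4.SY.pr [] = [] := rfl
      rw [e, List.append_nil] at h1 ⊢
      rw [Pool.Agent.K4H4.SY.V3.chg_rep] at h1
      simp only [List.length_cons, List.length_nil]
      omega
    · have h2 := Pool.Agent.K4H4.SY.V3.chg_app (List.replicate p.2 false)
        (Pool.Agent.K4H4.SY.pr P)
      rw [Pool.Agent.K4H4.SY.V3.chg_rep] at h2
      have h3 := ih hP
      rw [aw_eq] at h3
      rw [List.length_cons]
      omega

lemma v3_eq6 : 3 * lob (π / 3) = 2 * lob (π / 6) := GapVol.lob_dup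

lemma v3_num : 3 * lob (π / 3) ≤ 10154 / 10000 := by
  have h := Pool.Agent.Y79.CG.lob_pi_six
  rw [v3_eq6]
  linarith

/-- the volume is comparable with the number of factors -/
theorem vol_bounds (P : List (ℕ × ℕ)) (hP : P ≠ []) (h1 : ∀ p ∈ P, 1 ≤ p.1 ∧ 1 ≤ p.2) :
    4 * (3 * lob (π / 3)) * P.length ≤ hV (aw P) ∧
      hV (aw P) ≤ (4 * (3 * lob (π / 3)) + 20) * P.length := by
  constructor
  · have h2 := Pool.Agent.K4H4.SY.vol_pr P hP h1
    rw [Pool.Agent.R807.IN.rate_one] at h2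
    rw [aw_eq]
    linarith
  · have h2 := Pool.Agent.K4H4.SY.hinges_pr P hP h1
    have hk1 : 1 ≤ P.length := List.length_pos_of_ne_nil hP
    have h3 := Pool.Agent.K4H4.SY.V3.hinges_le (aw P)
    have h4 := chg_pr P hP
    rw [← aw_eq] at h2
    have h5 := Pool.Agent.K4H4.SY.hV_le (aw P) (by omega)
    have h6 : (hinges (aw P) : ℝ) ≤ 2 * P.length := by
      exact_mod_cast (by omega : hinges (aw P) ≤ 2 * P.length)
    have h7 : (Pool.Agent.K4H4.SY.lng (aw P) : ℝ) ≤ hinges (aw P) := by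
      have : Pool.Agent.K4H4.SY.lng (aw P) ≤ hinges (aw P) := by
        unfold Pool.Agent.K4H4.SY.lng hinges
        apply Finset.card_le_card
        intro i hi
        rw [Finset.mem_filter] at hi ⊢
        exact ⟨hi.1, hi.2.1⟩
      exact_mod_cast this
    have h8 := Pool.Agent.K4H4.SY.v3_nonneg
    have h9 : 2 * (3 * lob (π / 3)) * hinges (aw P) ≤ 2 * (3 * lob (π / 3)) * (2 * P.length) :=
      mul_le_mul_of_nonneg_left h6 (by positivity)
    linarith

/-! ### The upper bound -/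

lemma cap_le' (a : ℕ) : Pool.Agent.K4H4.SY.cap a ≤ 8 * (3 * lob (π / 3)) := by
  rw [v3_eq6]
  have h1 := Pool.Agent.R807.TQ.lmax (π / 4)
  have h2 := EvenVol.LobIneq.lob_six_pos
  refine (min_le_right _ _).trans ?_
  split_ifs <;> linarith

lemma cs_le (P : List (ℕ × ℕ)) :
    Pool.Agent.K4H4.SY.cs (Pool.Agent.K4H4.SY.sp P) ≤ 16 * (3 * lob (π / 3)) * P.length := by
  rw [Pool.Agent.K4H4.SY.cs_sp]
  induction P with
  | nil => simp
  | cons p P ih =>
    rw [List.map_cons, List.sum_cons, List.length_cons]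
    have h1 := cap_le' p.1
    have h2 := cap_le' p.2
    push_cast
    linarith

/-- upper bound of the invariants -/
theorem tv_upper (j : ℤ) (P : List (ℕ × ℕ)) {ε : ℝ} (hε : 0 < ε) :
    ∀ᶠ r : ℕ in atTop ⊓ 𝓟 {r : ℕ | Odd r}, tvw (half (2 * j) ++ wl (aw P)) r ≤
      Real.exp (r / (2 * π) * (16 * (3 * lob (π / 3)) * P.length + ε)) := by
  filter_upwards [Pool.Agent.K4H4.SY.fup4 (2 * j) (Pool.Agent.K4H4.SY.sp P) hε] with r hr
  rw [Pool.Agent.K4H4.SY.syw_sp] at hr
  refine hr.trans (Real.exp_le_exp.2 ?_)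
  have := cs_le P
  have hp := Real.pi_pos
  gcongr

end

end Pool.Agent.H759.QP
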