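import Pool.Agent.H759.QP.Link

/-!
The lower bound of the traces of the family of matrices.
-/

namespace Pool.Agent.H759.QP

open Finset Metric Pool.Agent.H759.PTB
open Pool.Agent.H759.KP (dg F0_dg dg_ge sw lr sw_mem sw_length bks bks_flatten bks_props)

noncomputable section

variable {δ : ℝ}

/-- the symbol of a word has no zeros, sharp form -/
lemma PP_word' (hδ : 0 ≤ δ ∧ δ ≤ 1) {n m : ℕ} (hn : n = m + 1) (hm1 : 1 ≤ m) {w : List Letter}
    (hw : ∀ x ∈ w, x = Letter.L ∨ x = Letter.R)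
    (hL : Letter.L ∈ w) (hR : Letter.R ∈ w) {t : ℂ}
    (ht : 336 * (n * ‖t‖) * 7 ^ 2 * w.length ≤ 1) :
    PP m (Mt δ n t w) := by
  subst hn
  intro l hl hRp z hz
  rw [sy_eq z rfl t hw hl]
  have hG := good_all hδ (ι := Fin l.length) (P := fun i => Pu z w l[i.1]) (w := w) (n := m + 1)
    (m := m) rfl hm1 (t := t) (Λ0 := 7) (by norm_num)
    (fun i => Pu_supp z hw l[i.1])
    (fun i => Pu_N' hw hL hR hz (hRp _ (List.getElem_mem _)))
    (List.length_pos_of_mem hL) ht m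
  have h1 := (hG univ (by rw [Finset.card_univ, Fintype.card_fin, hl]) 0 0 rfl
    (by rw [Finset.card_univ, Fintype.card_fin, hl, add_zero])).1
  have h2 : pr (fun i : Fin l.length => Pu z w l[i.1]) univ 0 = (l.map (Pu z w)).prod := by
    unfold pr
    rw [show (MvPolynomial.monomial 0 (1 : ℂ) : MvPolynomial ℕ ℂ) = 1 from rfl, one_mul]
    exact Fin.prod_univ_fun_getElem l (Pu z w)
  rwa [h2] at h1

/-- the symbol of a product of blocks has no zeros -/
lemma PP_blocks' (hδ : 0 ≤ δ ∧ δ ≤ 1) {n m : ℕ} (hn : n = m + 1) (hm1 : 1 ≤ m) {t : ℂ} (b : List Letter) (bs : List (List Letter))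
    (h : ∀ c ∈ b :: bs, (∀ x ∈ c, x = Letter.L ∨ x = Letter.R) ∧ Letter.L ∈ c ∧ Letter.R ∈ c ∧
      336 * (n * ‖t‖) * 7 ^ 2 * c.length ≤ 1) :
    PP m (Mt δ n t (b :: bs).flatten) := by
  induction bs generalizing b with
  | nil =>
    obtain ⟨h1, h2, h3, h4⟩ := h b List.mem_cons_self
    simpa using PP_word' hδ hn hm1 h1 h2 h3 h4
  | cons c bs ih =>
    obtain ⟨h1, h2, h3, h4⟩ := h b List.mem_cons_self
    have h5 := ih c (fun d hd => h d (List.mem_cons_of_mem _ hd))
    have h6 := PP_mm (PP_word' hδ hn hm1 h1 h2 h3 h4) h5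
    refine PP_congr ?_ h6
    intro k hk l _
    rw [List.flatten_cons, Mt_append n t b _ k (by omega) l]
    unfold mm
    rw [hn]

/-- **The family of traces has no zeros.** -/
theorem ft_ne (hδ : 0 ≤ δ ∧ δ ≤ 1) {n : ℕ} (hn : 2 ≤ n) {A : ℕ} {s : Bool} {l : List ℕ} {k : ℕ} (hk : 1 ≤ k)
    (hl : l.length = 2 * k) (h : ∀ a ∈ l, 1 ≤ a ∧ a ≤ A) {t : ℂ}
    (ht : 32928 * (n * ‖t‖) * A ≤ 1) : ft δ n (sw s l) t ≠ 0 := by
  obtain ⟨m, rfl⟩ : ∃ m, n = m + 1 := ⟨n - 1, by omega⟩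
  rw [ft_eq _ t (sw_mem s l)]
  apply trace_ne
  obtain ⟨h1, h2⟩ := bks_flatten k s l hl
  have hne : bks s l ≠ [] := by
    intro h0
    rw [h0] at h2
    simp at h2
    omega
  obtain ⟨b, bs, hb⟩ := List.exists_cons_of_ne_nil hne
  rw [← h1, hb]
  apply PP_blocks' hδ rfl (by omega)
  intro c hc
  rw [← hb] at hc
  obtain ⟨c1, c2, c3, c4⟩ := bks_props k s l hl h c hc
  refine ⟨c1, c2, c3, ?_⟩
  have h3 : (c.length : ℝ) ≤ 2 * A := by exact_mod_cast c4
  calc 336 * (((m + 1 : ℕ) : ℝ) * ‖t‖) * 7 ^ 2 * c.length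
      ≤ 336 * (((m + 1 : ℕ) : ℝ) * ‖t‖) * 7 ^ 2 * (2 * A) := by gcongr
    _ = 32928 * (((m + 1 : ℕ) : ℝ) * ‖t‖) * A := by ring
    _ ≤ 1 := ht

/-- lower bound of the family of traces on a disc of radius of order `1 / n` -/
theorem ft_lower (hδ : 0 ≤ δ ∧ δ ≤ 1) {n : ℕ} (hn : 2 ≤ n) {A : ℕ} (hA : 1 ≤ A) {s : Bool} {l : List ℕ} {k : ℕ}
    (hk : 1 ≤ k) (hl : l.length = 2 * k) (h : ∀ a ∈ l, 1 ≤ a ∧ a ≤ A) {t : ℂ}
    (ht : 65856 * (n * ‖t‖) * A ≤ 1) :
    dg (sw s l) ^ (n - 1) * Real.exp (-(k * n / 1500)) ≤ ‖ft δ n (sw s l) t‖ := by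
  have hA0 : (1 : ℝ) ≤ A := by exact_mod_cast hA
  have hn0 : (1 : ℝ) ≤ n := by exact_mod_cast (by omega : 1 ≤ n)
  have hk0 : (1 : ℝ) ≤ k := by exact_mod_cast hk
  have hF := F0_dg (by omega : 0 < n) (sw_mem s l)
  have hdg : (1 : ℝ) ≤ dg (sw s l) :=
    le_trans (one_le_pow₀ (by norm_num)) (dg_ge k s l hl h)
  have hF0 : 0 < F0 n (sw s l) := lt_of_lt_of_le (by positivity) hF
  set r : ℝ := 1 / (32928 * A) with hr
  have hr0 : 0 < r := by positivity
  have hR0 : 0 < r / n := by positivity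
  have hrs : r ≤ 1 / 4 := by
    rw [hr]
    apply one_div_le_one_div_of_le (by norm_num)
    linarith
  have hlen : ((sw s l).length : ℝ) ≤ 2 * A * k := by
    have := sw_length s l h
    rw [hl] at this
    have h2 : ((sw s l).length : ℝ) ≤ ((A * (2 * k) : ℕ) : ℝ) := by exact_mod_cast this
    push_cast at h2
    linarith
  set g : ℂ → ℂ := fun t => ft δ n (sw s l) t / (F0 n (sw s l) : ℂ) with hgdef
  have hball : ∀ z ∈ ball (0 : ℂ) (r / n), n * ‖z‖ < r := by
    intro z hz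
    rw [mem_ball_zero_iff, lt_div_iff₀ (by linarith)] at hz
    linarith
  have hg := lower_of_ne_zero (g := g) (R := r / n) (M := k * n / 3000) hR0
    (by positivity) (by
      apply DifferentiableOn.div_const
      apply ft_diff
      rw [mul_div_cancel₀ _ (by linarith : (n : ℝ) ≠ 0)]
      exact hrs) (by
      intro z hz
      have h1 := hball z hz
      have h2 := ft_bound hδ (n := n) (t := z) (by linarith) (sw s l)
      rw [hgdef]
      simp only
      rw [norm_div, Complex.norm_real, Real.norm_eq_abs, abs_of_pos hF0, div_le_iff₀ hF0, mul_comm]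
      refine h2.trans ?_
      apply mul_le_mul_of_nonneg_left _ hF0.le
      apply Real.exp_le_exp.2
      calc 4 * ((sw s l).length : ℝ) * (n ^ 2 * ‖z‖)
          = 4 * ((sw s l).length : ℝ) * (n * (n * ‖z‖)) := by ring
        _ ≤ 4 * (2 * A * k) * (n * r) := by gcongr
        _ = k * n / 4116 := by rw [hr]; field_simp; norm_num
        _ ≤ _ := by
          apply div_le_div_of_nonneg_left (by positivity) (by norm_num) (by norm_num)) (by
      rw [hgdef]
      simp only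
      rw [ft_zero]
      exact div_self (by exact_mod_cast hF0.ne')) (by
      intro z hz
      have h1 := hball z hz
      apply div_ne_zero _ (by exact_mod_cast hF0.ne')
      apply ft_ne hδ hn hk hl h
      have h2 : n * ‖z‖ * (32928 * A) ≤ 1 := by
        have h3 : n * ‖z‖ * (32928 * A) ≤ r * (32928 * A) := by gcongr
        have h4 : r * (32928 * (A : ℝ)) = 1 := by rw [hr]; field_simp
        linarith
      linarith) (z := t) (by
      rw [le_div_iff₀ (by norm_num), le_div_iff₀ (by linarith), hr, le_div_iff₀ (by positivity)]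
      linarith)
  have h1 : ‖ft δ n (sw s l) t‖ = F0 n (sw s l) * ‖g t‖ := by
    rw [hgdef]
    simp only
    rw [norm_div, Complex.norm_real, Real.norm_eq_abs, abs_of_pos hF0]
    field_simp
  rw [h1]
  have e : -(2 * (k * n / 3000 : ℝ)) = -(k * n / 1500) := by ring
  rw [e] at hg
  gcongr

end

end Pool.Agent.H759.QP
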