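import Pool.Graph.R_seed8.R807.TQ7

/-!
A level of the highest weight vectors bounds the sum of the invariants over the colours of the axis
from below, strands coloured `b`.
-/

set_option autoImplicit false

namespace Pool.Agent.H759.QP

open Finset Matrix Filter
open Pool.Agent.H550R3.Jones (br brf)
open Pool.Agent.W707.TV (vh Rh vh_ne br_vh_ne)
open Pool.Agent.Y482.CY (sb Nz Fn tri lv B3 dl on12 on23)
open Pool.Agent.Y482.CW
open Pool.Agent.Y80.CY (FF geom half FF_neg)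
open Pool.Agent.R807.TQ
open scoped Real Topology

theorem FF_add' {v : ℂ} {M b : ℕ} {t : ℕ → ℂ} (hv : v ≠ 0) (hr : v ^ (2 * M + 1) = 1) (a : ℤ) :
    FF v b t (a + (2 * M + 1)) = FF v b t a := by
  unfold FF
  refine Finset.sum_congr rfl fun m _ => ?_
  have h1 : (a + (2 * (M : ℤ) + 1)) * (3 * (b : ℤ) - 2 - 2 * m) =
      a * (3 * (b : ℤ) - 2 - 2 * m) + ((2 * M + 1 : ℕ) : ℤ) * (3 * (b : ℤ) - 2 - 2 * m) := by
    push_cast
    ring
  rw [h1, zpow_add₀ hv, zpow_mul v ((2 * M + 1 : ℕ) : ℤ), zpow_natCast, hr, _root_.one_zpow, mul_one]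

theorem orth' {v : ℂ} {M b m0 : ℕ} (hb : 1 ≤ b) (hbM : 3 * b - 2 < 2 * M + 1)
    (hm : m0 ≤ 3 * b - 2) (hv : IsPrimitiveRoot v (2 * M + 1)) (hv0 : v ≠ 0)
    (t : ℕ → ℂ) :
    ∑ a ∈ range (2 * M + 1), v ^ (-((a : ℤ) * (3 * (b : ℤ) - 2 - 2 * m0))) * FF v b t a
      = (2 * (M : ℂ) + 1) * t m0 := by
  unfold FF
  simp only [Finset.mul_sum]
  rw [Finset.sum_comm]
  rw [Finset.sum_eq_single m0]
  · have h1 : ∀ a : ℕ, v ^ (-((a : ℤ) * (3 * (b : ℤ) - 2 - 2 * m0))) *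
        (v ^ ((a : ℤ) * (3 * (b : ℤ) - 2 - 2 * (m0 : ℤ))) * t m0) = t m0 := by
      intro a
      rw [← mul_assoc, ← zpow_add₀ hv0, neg_add_cancel, zpow_zero, one_mul]
    rw [Finset.sum_congr rfl fun a _ => h1 a, Finset.sum_const, Finset.card_range, nsmul_eq_mul]
    push_cast
    ring
  · intro m hm hne
    have hm' := Finset.mem_range.1 hm
    have h1 : ∀ a : ℕ, v ^ (-((a : ℤ) * (3 * (b : ℤ) - 2 - 2 * m0))) *
        (v ^ ((a : ℤ) * (3 * (b : ℤ) - 2 - 2 * m)) * t m) =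
          v ^ ((a : ℤ) * (2 * ((m0 : ℤ) - m))) * t m := by
      intro a
      rw [← mul_assoc, ← zpow_add₀ hv0]
      congr 2
      ring
    rw [Finset.sum_congr rfl fun a _ => h1 a, ← Finset.sum_mul, geom hv hv0, if_neg, zero_mul]
    · omega
    · rw [abs_lt]
      constructor <;> omega
  · intro h
    exact absurd (Finset.mem_range.2 (by omega)) h

theorem main_ineq' {v : ℂ} {M b m0 : ℕ} (hb : 1 ≤ b) (hbM : 3 * b - 2 < 2 * M + 1)
    (hm : m0 ≤ 3 * b - 2) (hv : IsPrimitiveRoot v (2 * M + 1)) (hv0 : v ≠ 0)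
    (hn : ‖v‖ = 1) {t : ℕ → ℂ} (ht : ∀ m, m ≤ 3 * b - 2 → t (3 * b - 2 - m) = -t m) :
    (2 * (M : ℝ) + 1) * ‖t m0‖ ≤ 2 * ∑ a ∈ Icc 1 M, ‖FF v b t a‖ := by
  have h1 := orth' hb hbM hm hv hv0 t
  have h2 : (2 * (M : ℝ) + 1) * ‖t m0‖ ≤ ∑ a ∈ range (2 * M + 1), ‖FF v b t a‖ := by
    calc (2 * (M : ℝ) + 1) * ‖t m0‖ = ‖(2 * (M : ℂ) + 1) * t m0‖ := by
          rw [norm_mul]
          congr 1
          have : (2 * (M : ℂ) + 1) = ((2 * (M : ℝ) + 1 : ℝ) : ℂ) := by push_cast; ring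
          rw [this, Complex.norm_real, Real.norm_of_nonneg (by positivity)]
      _ ≤ ∑ a ∈ range (2 * M + 1), ‖v ^ (-((a : ℤ) * (3 * (b : ℤ) - 2 - 2 * m0))) * FF v b t a‖ := by
          rw [← h1]
          exact norm_sum_le _ _
      _ = ∑ a ∈ range (2 * M + 1), ‖FF v b t a‖ := by
          refine Finset.sum_congr rfl fun a _ => ?_
          rw [norm_mul, norm_zpow, hn, _root_.one_zpow, one_mul]
  have h3 : FF v b t 0 = 0 := by
    have := FF_neg (v := v) hb ht 0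
    rw [neg_zero] at this
    exact self_eq_neg.1 this
  rw [half (fun a => ‖FF v b t a‖)] at h2
  · exact h2
  · simp [h3]
  · intro a ha _
    have h4 : ((2 * M + 1 - a : ℕ) : ℤ) = -(a : ℤ) + (2 * M + 1) := by omega
    simp only [h4]
    rw [FF_add' hv0 hv.pow_eq_one, FF_neg hb ht, norm_neg]

/-- the functions and the matrices of size `K ≥ b` -/
lemma ta_gen {K b m : ℕ} (hbK : b ≤ K) {v : ℂ} (hv : v ≠ 0) (hN : Nz v (2 * K)) (u : List Bool) :
    ta K (wl u) (b, (b, b)) v m = ta b (wl u) (b, (b, b)) v m := by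
  have h1 := Pool.Agent.Y182.CW.t_CNV v hv K hN (wl u) (b, (b, b)) m ⟨hbK, hbK, hbK⟩
    (Pool.Agent.Y672.CW.swW_diag _ b)
  have h2 := Pool.Agent.Y182.CW.t_CNV v hv b (fun l h0 h => hN l h0 (by omega)) (wl u) (b, (b, b)) m
    ⟨le_rfl, le_rfl, le_rfl⟩ (Pool.Agent.Y672.CW.swW_diag _ b)
  rw [h1, h2]

lemma ta_low' {K b m : ℕ} (hbK : b ≤ K) {v : ℂ} (hv : v ≠ 0) (hN : Nz v (2 * K)) (hm : m < b)
    (u : List Bool) : ta K (wl u) (b, (b, b)) v m = trW b v u m := by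
  rw [ta_gen hbK hv hN]
  exact ta_low hv (fun l h0 h => hN l h0 (by omega)) hm u

/-- **A level bounds the sum of the invariants from below.** -/
theorem lower_sum' {M b m0 : ℕ} (hb : 1 ≤ b) (hbM : b ≤ M) (hbM' : 3 * b - 2 < 2 * M + 1)
    (hm : m0 ≤ 3 * b - 2) (u : List Bool) :
    ‖dif (ta M (wl u) (b, (b, b)) (vh M)) m0‖ ≤
      ∑ a ∈ Icc 1 M, ‖br (vh M) (a : ℤ) * tg M (wl u) a (b, (b, b)) (vh M)‖ := by
  have hv := Pool.Agent.Y80.CY.vh_ne M
  have hv1 := Pool.Agent.Y80.CY.vh_norm M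
  have hnz2 : Nz (vh M) (2 * M) := fun l hl0 hl => Pool.Agent.Y80.CY.vh_br M l hl0 (by omega)
  have hnz : Nz (vh M) M := fun l hl0 hl => hnz2 l hl0 (by omega)
  have hnzb : Nz (vh M) b := fun l hl0 hl => hnz2 l hl0 (by omega)
  have hta : ta M (wl u) (b, (b, b)) (vh M) = ta b (wl u) (b, (b, b)) (vh M) :=
    funext fun m => ta_gen hbM hv hnz2 u
  have h0 : ∀ m, 3 * (b - 1) < m → ta b (wl u) (b, (b, b)) (vh M) m = 0 := by
    intro m hm
    unfold ta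
    refine Finset.sum_eq_zero fun x _ => ?_
    rw [if_neg]
    have h1 := x.1.isLt
    have h2 := x.2.1.isLt
    have h3 := x.2.2.isLt
    unfold lv
    omega
  have hs : ∀ m, m ≤ 3 * (b - 1) → ta b (wl u) (b, (b, b)) (vh M) m =
      ta b (wl u) (b, (b, b)) (vh M) (3 * (b - 1) - m) := by
    intro m hm
    rw [ta_wl, ta_wl]
    exact symw hv hnzb hm u
  have hineq := main_ineq' hb hbM' hm (Pool.Agent.Y80.CY.vh_prim M) hv hv1
    (dif_anti (t := ta b (wl u) (b, (b, b)) (vh M)) hb h0 hs)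
  have hsum : ∑ a ∈ Icc 1 M, ‖FF (vh M) b (dif (ta b (wl u) (b, (b, b)) (vh M))) a‖ =
      ∑ a ∈ Icc 1 M, ‖br (vh M) (a : ℤ) * tg M (wl u) a (b, (b, b)) (vh M)‖ := by
    refine Finset.sum_congr rfl fun a ha => ?_
    rw [Finset.mem_Icc] at ha
    refine FF_gen hv hv1 hb h0 a ?_
    rw [Pool.Agent.Y514.CW.axw (vh M) hv M (wl u) a (b, (b, b)) hnz ha.1 ha.2
      ⟨hbM, hbM, hbM⟩, hta]
    have h5 : ∑ m ∈ range (3 * M), (vh M) ^ ((((b, (b, b)) : Col).1 : ℤ) +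
        ((b, (b, b)) : Col).2.1 + ((b, (b, b)) : Col).2.2 - 3 - 2 * a * m) *
          ta b (wl u) (b, (b, b)) (vh M) m =
        ∑ m ∈ range (3 * b), (vh M) ^ ((((b, (b, b)) : Col).1 : ℤ) +
        ((b, (b, b)) : Col).2.1 + ((b, (b, b)) : Col).2.2 - 3 - 2 * a * m) *
          ta b (wl u) (b, (b, b)) (vh M) m := by
      symm
      apply Finset.sum_subset
      · intro x hx
        rw [Finset.mem_range] at hx ⊢
        omega
      · intro x _ hx
        rw [Finset.mem_range] at hx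
        rw [h0 x (by omega), mul_zero]
    rw [h5]
    refine sum_congr rfl fun m _ => ?_
    congr 2
    simp only
    ring
  rw [hsum] at hineq
  rw [hta]
  have hMr : (1 : ℝ) ≤ M := by exact_mod_cast (le_trans hb hbM)
  have h5 : 0 ≤ ‖dif (ta b (wl u) (b, (b, b)) (vh M)) m0‖ := norm_nonneg _
  nlinarith

/-- the trace of the matrices on the level `k + 1` -/
theorem dif_eq' {M b k : ℕ} (hbM : b ≤ M) (hk : k + 1 < b) (u : List Bool) :
    dif (ta M (wl u) (b, (b, b)) (vh M)) (k + 1) = (mw b (k + 1) (vh M) u).trace := by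
  have hv := Pool.Agent.Y80.CY.vh_ne M
  have hnz2 : Nz (vh M) (2 * M) := fun l hl0 hl => Pool.Agent.Y80.CY.vh_br M l hl0 (by omega)
  rw [trcw hv k (fun l h0 h => hnz2 l h0 (by omega)) u]
  unfold dif
  rw [if_neg (by omega), ta_low' hbM hv hnz2 hk, Nat.add_sub_cancel,
    ta_low' hbM hv hnz2 (by omega)]

end Pool.Agent.H759.QP
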