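import Pool.Agent.H759.QP.Coarse
import Pool.Agent.H759.QP.Low

/-!
The matrices of `s_2` and `s_1⁻¹` on the spaces of highest weight vectors belong to the analytic
family.
-/

set_option autoImplicit false

namespace Pool.Agent.H759.QP

open Matrix Finset
open Pool.Agent.H550R3.Jones (br brf)
open Pool.Agent.Y482.CY (LL UU sb Nz)
open Pool.Agent.R807.TQ (mw)
open Pool.Agent.H759.PTB (sc aR aL sc_mul)

noncomputable section

/-- `exp (i t x)` -/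
def EE (t x : ℝ) : ℂ := Complex.exp (Complex.I * t * x)

lemma EE_add (t x y : ℝ) : EE t (x + y) = EE t x * EE t y := by
  unfold EE
  rw [← Complex.exp_add]
  congr 1
  push_cast
  ring

lemma EE_ne (t x : ℝ) : EE t x ≠ 0 := Complex.exp_ne_zero _

lemma EE_norm (t x : ℝ) : ‖EE t x‖ = 1 := by
  unfold EE
  rw [show Complex.I * t * x = ((t * x : ℝ) : ℂ) * Complex.I by push_cast; ring]
  exact Complex.norm_exp_ofReal_mul_I _

lemma EE_zpow (t : ℝ) (z : ℤ) : EE t 1 ^ z = EE t z := by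
  unfold EE
  rw [← Complex.exp_int_mul]
  congr 1
  push_cast
  ring

lemma EE_pow (t x : ℝ) (n : ℕ) : EE t x ^ n = EE t (x * n) := by
  unfold EE
  rw [← Complex.exp_nat_mul]
  congr 1
  push_cast
  ring

/-- the gauge -/
def gg (t : ℝ) (n : ℕ) : ℂ := ∏ j ∈ range n, sc ((((j : ℝ) + 1 : ℝ) : ℂ) * t)

lemma br_sc (t : ℝ) (j : ℕ) : br (EE t 1) ((j : ℤ) + 1) =
    2 * Complex.I * (((((j : ℝ) + 1 : ℝ) : ℂ) * t) * sc ((((j : ℝ) + 1 : ℝ) : ℂ) * t)) := by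
  rw [sc_mul]
  unfold br
  rw [EE_zpow, EE_zpow]
  unfold EE Complex.sin
  have h1 : Complex.I * (t : ℂ) * (((j : ℤ) + 1 : ℤ) : ℝ) =
      (((j : ℝ) + 1 : ℝ) : ℂ) * t * Complex.I := by push_cast; ring
  have h2 : Complex.I * (t : ℂ) * ((-((j : ℤ) + 1) : ℤ) : ℝ) =
      -((((j : ℝ) + 1 : ℝ) : ℂ) * t) * Complex.I := by push_cast; ring
  rw [h1, h2]
  linear_combination (Complex.exp ((((j : ℝ) + 1 : ℝ) : ℂ) * t * Complex.I)
    - Complex.exp (-((((j : ℝ) + 1 : ℝ) : ℂ) * t) * Complex.I)) * Complex.I_mul_I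

lemma brf_gg (t : ℝ) (n : ℕ) :
    brf (EE t 1) n = (2 * Complex.I * t) ^ n * (n.factorial : ℂ) * gg t n := by
  induction n with
  | zero => simp [brf, gg]
  | succ n ih =>
    have e1 : brf (EE t 1) (n + 1) = brf (EE t 1) n * br (EE t 1) ((n : ℤ) + 1) := by
      unfold brf; rw [prod_range_succ]
    have e2 : gg t (n + 1) = gg t n * sc ((((n : ℝ) + 1 : ℝ) : ℂ) * t) := by
      unfold gg; rw [prod_range_succ]
    rw [e1, e2, ih, br_sc, Nat.factorial_succ]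
    push_cast
    ring

lemma gg_ne {t : ℝ} {m : ℕ} (hN : Nz (EE t 1) m) {n : ℕ} (hn : n ≤ m) : gg t n ≠ 0 := by
  unfold gg
  rw [Finset.prod_ne_zero_iff]
  intro j hj
  rw [Finset.mem_range] at hj
  have h1 := hN (j + 1) (by omega) (by omega)
  push_cast at h1
  rw [br_sc] at h1
  intro h2
  apply h1
  rw [h2]
  ring

lemma sb_gg {t : ℝ} (ht : t ≠ 0) {m : ℕ} (hN : Nz (EE t 1) m) {n k : ℕ} (hn : n ≤ m) (hk : k ≤ n) :
    sb (EE t 1) n k = (n.choose k : ℂ) * (gg t n / (gg t k * gg t (n - k))) := by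
  unfold sb
  rw [brf_gg, brf_gg, brf_gg]
  have h1 : ((n.choose k : ℕ) : ℂ) * (k.factorial : ℂ) * ((n - k).factorial : ℂ)
      = (n.factorial : ℂ) := by
    exact_mod_cast Nat.choose_mul_factorial_mul_factorial hk
  have ht' : (2 * Complex.I * (t : ℂ)) ≠ 0 :=
    mul_ne_zero (mul_ne_zero two_ne_zero Complex.I_ne_zero) (by exact_mod_cast ht)
  have h2 : (2 * Complex.I * (t : ℂ)) ^ n =
      (2 * Complex.I * (t : ℂ)) ^ k * (2 * Complex.I * (t : ℂ)) ^ (n - k) := by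
    rw [← pow_add]; congr 1; omega
  have h3 : (k.factorial : ℂ) ≠ 0 := by exact_mod_cast Nat.factorial_ne_zero k
  have h4 : ((n - k).factorial : ℂ) ≠ 0 := by exact_mod_cast Nat.factorial_ne_zero _
  have h5 := pow_ne_zero k ht'
  have h6 := pow_ne_zero (n - k) ht'
  have h7 := gg_ne hN (n := k) (by omega)
  have h8 := gg_ne hN (n := n - k) (by omega)
  rw [← h1, h2]
  generalize (2 * Complex.I * (t : ℂ)) ^ k = x at *
  generalize (2 * Complex.I * (t : ℂ)) ^ (n - k) = y at *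
  field_simp

lemma gg_add (t : ℝ) (k d : ℕ) :
    gg t (k + d) = gg t k * ∏ j ∈ range d, sc ((((k : ℝ) + 1 + j : ℝ) : ℂ) * t) := by
  unfold gg
  rw [Finset.prod_range_add]
  congr 1
  apply Finset.prod_congr rfl
  intro j _
  congr 2
  push_cast
  ring

lemma gg_add' (t : ℝ) (e d : ℕ) :
    gg t (e + d) = gg t e * ∏ j ∈ range d, sc ((((e : ℝ) + d - j : ℝ) : ℂ) * t) := by
  rw [gg_add]
  congr 1
  rw [← Finset.prod_range_reflect]
  apply Finset.prod_congr rfl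
  intro j hj
  rw [Finset.mem_range] at hj
  congr 2
  have : ((d - 1 - j : ℕ) : ℝ) = (d : ℝ) - 1 - j := by
    rw [Nat.sub_sub, Nat.cast_sub (by omega)]
    push_cast
    ring
  rw [this]
  congr 1
  ring

/-- the diagonal gauge -/
def GG (t δ : ℝ) (m k : ℕ) : ℂ := (-1) ^ k * EE t ((k : ℝ) ^ 2 - (2 * m - 1 - δ) * k) * gg t k

lemma GG_ne {t δ : ℝ} {m : ℕ} (hN : Nz (EE t 1) m) {k : ℕ} (hk : k ≤ m) : GG t δ m k ≠ 0 :=
  mul_ne_zero (mul_ne_zero (pow_ne_zero _ (by norm_num)) (EE_ne _ _)) (gg_ne hN hk)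

lemma vb_pow {t δ : ℝ} {b : ℕ} (hb : EE t (2 * ((b : ℝ) - 1)) = -EE t (2 * δ - 1)) (i : ℕ) :
    EE t (2 * ((b : ℝ) - 1) * i) = (-1) ^ i * EE t ((2 * δ - 1) * i) := by
  rw [← EE_pow, hb, neg_pow, EE_pow]

lemma phase_L {t δ : ℝ} {b m : ℕ} (hb : EE t (2 * ((b : ℝ) - 1)) = -EE t (2 * δ - 1)) {k l : ℕ}
    (z : ℤ) (hz : z = 2 * ((b : ℤ) - 1) * k - k * ((l : ℤ) - 1) + 2 * ((m : ℤ) - l) * ((l : ℤ) - k)
      + ((l : ℤ) - k) * ((l : ℤ) - k - 1)) :
    EE t (-((k - δ) * (l - δ))) * ((-1) ^ k * EE t ((k : ℝ) ^ 2 - (2 * m - 1 - δ) * k)) =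
      EE t (-δ ^ 2) * EE t ((l : ℝ) ^ 2 - (2 * m - 1 - δ) * l) * EE t 1 ^ z := by
  rw [EE_zpow, hz]
  have e1 : ((2 * ((b : ℤ) - 1) * k - k * ((l : ℤ) - 1) + 2 * ((m : ℤ) - l) * ((l : ℤ) - k)
      + ((l : ℤ) - k) * ((l : ℤ) - k - 1) : ℤ) : ℝ) = 2 * ((b : ℝ) - 1) * k +
      (- k * ((l : ℝ) - 1) + 2 * ((m : ℝ) - l) * ((l : ℝ) - k)
      + ((l : ℝ) - k) * ((l : ℝ) - k - 1)) := by
    push_cast
    ring
  rw [e1, EE_add t (2 * ((b : ℝ) - 1) * k), vb_pow hb]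
  have e2 : -((k - δ) * (l - δ)) + ((k : ℝ) ^ 2 - (2 * m - 1 - δ) * k) =
      -δ ^ 2 + ((l : ℝ) ^ 2 - (2 * m - 1 - δ) * l) + (2 * δ - 1) * k +
      (- k * ((l : ℝ) - 1) + 2 * ((m : ℝ) - l) * ((l : ℝ) - k)
      + ((l : ℝ) - k) * ((l : ℝ) - k - 1)) := by ring
  have e3 := congrArg (EE t) e2
  rw [EE_add, EE_add, EE_add, EE_add] at e3
  linear_combination (-1) ^ k * e3

lemma phase_R {t δ : ℝ} {b m : ℕ} (hb : EE t (2 * ((b : ℝ) - 1)) = -EE t (2 * δ - 1)) {k l : ℕ}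
    (hk : k ≤ m) (z : ℤ) (hz : z = -(2 * ((b : ℤ) - 1) * ((m : ℤ) - k)) -
      ((k : ℤ) - l) * ((m : ℤ) - l - 1) + ((m : ℤ) - k) * ((m : ℤ) - k - 1)) :
    EE t ((m - l - δ) * (m - k - δ)) * EE t ((k : ℝ) ^ 2 - (2 * m - 1 - δ) * k) =
      EE t (δ ^ 2) * EE t ((l : ℝ) ^ 2 - (2 * m - 1 - δ) * l) * ((-1) ^ (m - k) * EE t 1 ^ z) := by
  obtain ⟨d, rfl⟩ := Nat.exists_eq_add_of_le hk
  rw [EE_zpow, hz, Nat.add_sub_cancel_left]
  have e1 : ((-(2 * ((b : ℤ) - 1) * (((k + d : ℕ) : ℤ) - k)) -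
      ((k : ℤ) - l) * (((k + d : ℕ) : ℤ) - l - 1) + (((k + d : ℕ) : ℤ) - k) *
        (((k + d : ℕ) : ℤ) - k - 1) : ℤ) : ℝ) = -(2 * ((b : ℝ) - 1) * d) +
      (-((k : ℝ) - l) * ((k : ℝ) + d - l - 1) + d * ((d : ℝ) - 1)) := by
    push_cast
    ring
  rw [e1, EE_add t (-(2 * ((b : ℝ) - 1) * d))]
  have e4 : (-1) ^ d * EE t (-(2 * ((b : ℝ) - 1) * d)) = EE t (-((2 * δ - 1) * d)) := by
    have h1 := vb_pow hb d
    have h2 : EE t (2 * ((b : ℝ) - 1) * d) * EE t (-(2 * ((b : ℝ) - 1) * d)) = 1 := by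
      rw [← EE_add, add_neg_cancel]
      simp [EE]
    have h3 : EE t ((2 * δ - 1) * d) * EE t (-((2 * δ - 1) * d)) = 1 := by
      rw [← EE_add, add_neg_cancel]
      simp [EE]
    rw [h1] at h2
    have h4 := EE_ne t ((2 * δ - 1) * d)
    apply mul_left_cancel₀ h4
    rw [h3]
    linear_combination h2
  have e2 : (((k + d : ℕ) : ℝ) - l - δ) * (((k + d : ℕ) : ℝ) - k - δ) +
      ((k : ℝ) ^ 2 - (2 * ((k + d : ℕ) : ℝ) - 1 - δ) * k) =
      δ ^ 2 + ((l : ℝ) ^ 2 - (2 * ((k + d : ℕ) : ℝ) - 1 - δ) * l) + -((2 * δ - 1) * d) +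
      (-((k : ℝ) - l) * ((k : ℝ) + d - l - 1) + d * ((d : ℝ) - 1)) := by
    push_cast
    ring
  have e3 := congrArg (EE t) e2
  rw [EE_add, EE_add, EE_add, EE_add] at e3
  rw [e3, ← e4]
  ring

lemma ph_EE (t p : ℝ) : Complex.exp (Complex.I * ((p : ℂ) * t)) = EE t p := by
  unfold EE
  congr 1
  ring

lemma ph_EE' (t p : ℝ) : Complex.exp (-(Complex.I * ((p : ℂ) * t))) = EE t (-p) := by
  unfold EE
  congr 1
  push_cast
  ring

lemma entry_L {t δ : ℝ} (ht : t ≠ 0) {b m : ℕ} (hN : Nz (EE t 1) m)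
    (hb : EE t (2 * ((b : ℝ) - 1)) = -EE t (2 * δ - 1)) (k l : Fin (m + 1)) :
    fm δ (m + 1) (t : ℂ) PTB.Letter.L k l =
      EE t (-δ ^ 2) * (GG t δ m l * LL b m (EE t 1) l k * (GG t δ m k)⁻¹) := by
  show (aL (m + 1) k l : ℂ) * exL δ (m + 1) k l t = _
  have hk := k.2
  have hl := l.2
  unfold LL
  by_cases h : (k : ℕ) ≤ l
  · rw [if_pos h]
    unfold aL exL
    rw [if_pos h]
    obtain ⟨d, hd⟩ := Nat.exists_eq_add_of_le h
    obtain ⟨e, he⟩ := Nat.exists_eq_add_of_le (show (l : ℕ) ≤ m by omega)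
    have hmk : m - k = e + d := by omega
    have hlk : (l : ℕ) - k = d := by omega
    have hml : m - k - (l - k) = e := by omega
    rw [sb_gg ht hN (by omega) (by omega), hml]
    have q1 := gg_add t k d
    have q2 := gg_add' t e d
    rw [← hd] at q1
    rw [hlk, show m + 1 - 1 - (k : ℕ) = m - k by omega, hmk]
    have g1 := gg_ne hN (n := k) (by omega)
    have g2 := gg_ne hN (n := l) (by omega)
    have g3 := gg_ne hN (n := d) (by omega)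
    have g4 := gg_ne hN (n := e) (by omega)
    have g5 := gg_ne hN (n := e + d) (by omega)
    rw [ph_EE']
    unfold ph
    have hph := phase_L (m := m) hb (k := k) (l := l) _ rfl
    have p1 : ∏ j ∈ range d, (sc ((((k : ℝ) + 1 + j : ℝ) : ℂ) * t)
        * sc (((((m + 1 : ℕ) : ℝ) - 1 - k - j : ℝ) : ℂ) * t)
        * (sc ((((j : ℝ) + 1 : ℝ) : ℂ) * t))⁻¹) =
        (gg t l / gg t k) * (gg t (e + d) / gg t e) * (gg t d)⁻¹ := by
      have r1 : ∏ j ∈ range d, sc (((((m + 1 : ℕ) : ℝ) - 1 - k - j : ℝ) : ℂ) * t) =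
          gg t (e + d) / gg t e := by
        rw [eq_div_iff g4, q2, mul_comm]
        congr 1
        apply Finset.prod_congr rfl
        intro j _
        congr 3
        have : (m : ℝ) = (k : ℕ) + d + e := by
          exact_mod_cast (by omega : m = (k : ℕ) + d + e)
        push_cast
        rw [this]
        ring
      have r2 : ∏ j ∈ range d, sc ((((j : ℝ) + 1 : ℝ) : ℂ) * t) = gg t d := rfl
      have r3 : ∏ j ∈ range d, sc ((((k : ℝ) + 1 + j : ℝ) : ℂ) * t) = gg t l / gg t k := by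
        rw [eq_div_iff g1, q1, mul_comm]
      rw [Finset.prod_mul_distrib, Finset.prod_mul_distrib, Finset.prod_inv_distrib, r1, r2, r3]
    rw [p1]
    unfold GG
    have g6 := EE_ne t ((k : ℝ) ^ 2 - (2 * m - 1 - δ) * k)
    have g7 : ((-1 : ℂ)) ^ (k : ℕ) ≠ 0 := pow_ne_zero _ (by norm_num)
    have g8 : ((-1 : ℂ)) ^ (l : ℕ) * ((-1 : ℂ)) ^ (l : ℕ) = 1 := by
      rw [← mul_pow]; norm_num
    generalize EE t 1 ^ (2 * ((b : ℤ) - 1) * (k : ℕ) - (k : ℕ) * (((l : ℕ) : ℤ) - 1) +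
      2 * ((m : ℤ) - (l : ℕ)) * (((l : ℕ) : ℤ) - (k : ℕ)) +
      (((l : ℕ) : ℤ) - (k : ℕ)) * (((l : ℕ) : ℤ) - (k : ℕ) - 1)) = V at hph ⊢
    generalize EE t (-((k - δ) * (l - δ))) = A at hph ⊢
    generalize EE t (((k : ℕ) : ℝ) ^ 2 - (2 * m - 1 - δ) * (k : ℕ)) = B at hph g6 ⊢
    generalize EE t (((l : ℕ) : ℝ) ^ 2 - (2 * m - 1 - δ) * (l : ℕ)) = C at hph ⊢
    generalize EE t (-δ ^ 2) = D at hph ⊢
    generalize ((-1 : ℂ)) ^ (k : ℕ) = S at hph g7 ⊢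
    generalize ((-1 : ℂ)) ^ (l : ℕ) = T at g8 ⊢
    push_cast
    have hA : A = D * C * V * (S * B)⁻¹ := by
      rw [← hph]
      field_simp
    rw [hA]
    field_simp
    linear_combination (-(((e + d).choose d : ℕ) : ℂ) * (D * C * V)) * g8
  · rw [if_neg h]
    unfold aL
    rw [if_neg h]
    simp

lemma entry_R {t δ : ℝ} (ht : t ≠ 0) {b m : ℕ} (hN : Nz (EE t 1) m)
    (hb : EE t (2 * ((b : ℝ) - 1)) = -EE t (2 * δ - 1)) (k l : Fin (m + 1)) :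
    fm δ (m + 1) (t : ℂ) PTB.Letter.R k l =
      EE t (δ ^ 2) * (GG t δ m l * UU b m (EE t 1) l k * (GG t δ m k)⁻¹) := by
  show (aR k l : ℂ) * exR δ (m + 1) k l t = _
  have hk := k.2
  have hl := l.2
  unfold UU
  by_cases h : (l : ℕ) ≤ k
  · rw [if_pos h]
    unfold aR exR
    rw [sb_gg ht hN (by omega) h]
    have g1 := gg_ne hN (n := k) (by omega)
    have g2 := gg_ne hN (n := l) (by omega)
    have g3 := gg_ne hN (n := k - l) (by omega)
    rw [ph_EE]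
    unfold ph
    have hph := phase_R (m := m) hb (k := k) (l := l) (by omega) _ rfl
    rw [Finset.prod_inv_distrib]
    change _ * (_ * (gg t (k - l))⁻¹) = _
    unfold GG
    have g6 := EE_ne t ((k : ℝ) ^ 2 - (2 * m - 1 - δ) * k)
    have g7 : ((-1 : ℂ)) ^ (k : ℕ) ≠ 0 := pow_ne_zero _ (by norm_num)
    have g8 : ((-1 : ℂ)) ^ (l : ℕ) * ((-1 : ℂ)) ^ (m - l) =
        ((-1 : ℂ)) ^ (k : ℕ) * ((-1 : ℂ)) ^ (m - k) := by
      rw [← pow_add, ← pow_add]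
      congr 1
      omega
    have e0 : (((m + 1 : ℕ) : ℝ) - 1 - (l : ℕ) - δ) * (((m + 1 : ℕ) : ℝ) - 1 - (k : ℕ) - δ) =
        ((m : ℝ) - (l : ℕ) - δ) * ((m : ℝ) - (k : ℕ) - δ) := by
      push_cast
      ring
    rw [e0]
    generalize EE t 1 ^ (-(2 * ((b : ℤ) - 1) * ((m : ℤ) - (k : ℕ))) -
      (((k : ℕ) : ℤ) - (l : ℕ)) * ((m : ℤ) - (l : ℕ) - 1) +
      ((m : ℤ) - (k : ℕ)) * ((m : ℤ) - (k : ℕ) - 1)) = V at hph ⊢
    generalize EE t (((m : ℝ) - (l : ℕ) - δ) * ((m : ℝ) - (k : ℕ) - δ)) = A at hph ⊢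
    generalize EE t (((k : ℕ) : ℝ) ^ 2 - (2 * m - 1 - δ) * (k : ℕ)) = B at hph g6 ⊢
    generalize EE t (((l : ℕ) : ℝ) ^ 2 - (2 * m - 1 - δ) * (l : ℕ)) = C at hph ⊢
    generalize EE t (δ ^ 2) = D at hph ⊢
    generalize ((-1 : ℂ)) ^ (k : ℕ) = S at g7 g8 ⊢
    generalize ((-1 : ℂ)) ^ (l : ℕ) = T at g8 ⊢
    generalize ((-1 : ℂ)) ^ (m - k) = S' at hph g8 ⊢
    generalize ((-1 : ℂ)) ^ (m - l) = T' at g8 ⊢
    have hA : A = D * C * (S' * V) * B⁻¹ := by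
      rw [← hph]
      field_simp
    rw [hA]
    push_cast
    field_simp
    linear_combination (-(((k : ℕ).choose l : ℕ) : ℂ) * (D * C * V)) * g8
  · rw [if_neg h]
    unfold aR
    rw [Nat.choose_eq_zero_of_lt (by omega)]
    simp

/-- the letters of a word -/
def lw (u : List Bool) : List PTB.Letter := u.map KP.lr

/-- **The traces.** -/
theorem bridge {t δ : ℝ} (ht : t ≠ 0) {b m : ℕ} (hN : Nz (EE t 1) m)
    (hb : EE t (2 * ((b : ℝ) - 1)) = -EE t (2 * δ - 1)) (u : List Bool) :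
    ‖(mw b m (EE t 1) u).trace‖ = ‖ft δ (m + 1) (lw u) t‖ := by
  have key : ∀ u : List Bool, ∃ c : ℂ, ‖c‖ = 1 ∧ ∀ k l : Fin (m + 1),
      ((lw u).map (fm δ (m + 1) t)).prod k l =
        c * (GG t δ m l * mw b m (EE t 1) u l k * (GG t δ m k)⁻¹) := by
    intro u
    induction u with
    | nil =>
      refine ⟨1, norm_one, fun k l => ?_⟩
      show (1 : Matrix (Fin (m + 1)) (Fin (m + 1)) ℂ) k l =
        1 * (GG t δ m l * (1 : Matrix (Fin (m + 1)) (Fin (m + 1)) ℂ) l k * (GG t δ m k)⁻¹)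
      rw [Matrix.one_apply, Matrix.one_apply]
      by_cases h : k = l
      · subst h
        rw [if_pos rfl, mul_one, one_mul, mul_inv_cancel₀ (GG_ne hN (by omega))]
      · rw [if_neg h, if_neg (Ne.symm h)]
        ring
    | cons s u ih =>
      obtain ⟨c, hc, h⟩ := ih
      have h1 : ∃ c' : ℂ, ‖c'‖ = 1 ∧ ∀ k l : Fin (m + 1), fm δ (m + 1) (t : ℂ) (KP.lr s) k l =
          c' * (GG t δ m l * (if s then UU b m (EE t 1) else LL b m (EE t 1)) l k *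
            (GG t δ m k)⁻¹) := by
        cases s
        · exact ⟨_, EE_norm _ _, fun k l => entry_L ht hN hb k l⟩
        · exact ⟨_, EE_norm _ _, fun k l => entry_R ht hN hb k l⟩
      obtain ⟨c', hc', h'⟩ := h1
      refine ⟨c' * c, by rw [norm_mul, hc, hc', one_mul], fun k l => ?_⟩
      have e1 : lw (s :: u) = KP.lr s :: lw u := rfl
      have e2 : mw b m (EE t 1) (s :: u) =
        mw b m (EE t 1) u * (if s then UU b m (EE t 1) else LL b m (EE t 1)) := rfl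
      rw [e1, List.map_cons, List.prod_cons, Matrix.mul_apply, e2, Matrix.mul_apply,
        Finset.mul_sum, Finset.sum_mul, Finset.mul_sum]
      apply Finset.sum_congr rfl
      intro j _
      rw [h, h']
      have g1 := GG_ne (δ := δ) hN (k := j) (by omega)
      field_simp
  obtain ⟨c, hc, h⟩ := key u
  unfold ft Matrix.trace
  have e : ∑ i, (((lw u).map (fm δ (m + 1) t)).prod).diag i =
      c * ∑ i, (mw b m (EE t 1) u).diag i := by
    rw [Finset.mul_sum]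
    apply Finset.sum_congr rfl
    intro i _
    rw [Matrix.diag_apply, Matrix.diag_apply, h]
    have g1 := GG_ne (δ := δ) hN (k := i) (by omega)
    field_simp
  rw [e, norm_mul, hc, one_mul]

end

end Pool.Agent.H759.QP
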