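import Pool.Agent.H759.KP.Coarse

/-!
The analytic family of matrices through the symmetric powers, for the highest weight vectors of
`V_b ⊗ V_b ⊗ V_b`.
-/

namespace Pool.Agent.H759.QP

open Finset Metric Matrix Pool.Agent.H759.PTB
open Pool.Agent.H759.KP (sc_fac c0_bound c2_bound)

noncomputable section

/-- the quadratic phase -/
def ph (x y δ : ℝ) : ℝ := (x - δ) * (y - δ)

/-- the analytic factor of the letter `R` -/
def exR (δ : ℝ) (n k l : ℕ) (t : ℂ) : ℂ :=
  Complex.exp (Complex.I * ((ph (n - 1 - l) (n - 1 - k) δ : ℂ) * t)) * ∏ j ∈ range (k - l),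
    (sc ((((j : ℝ) + 1 : ℝ) : ℂ) * t))⁻¹

/-- the analytic factor of the letter `L` -/
def exL (δ : ℝ) (n k l : ℕ) (t : ℂ) : ℂ :=
  Complex.exp (-(Complex.I * ((ph k l δ : ℂ) * t))) * ∏ j ∈ range (l - k),
    (sc ((((k : ℝ) + 1 + j : ℝ) : ℂ) * t)
      * sc ((((n : ℝ) - 1 - k - j : ℝ) : ℂ) * t)
      * (sc ((((j : ℝ) + 1 : ℝ) : ℂ) * t))⁻¹)

/-- the family of matrices -/
def fm (δ : ℝ) (n : ℕ) (t : ℂ) : Letter → Matrix (Fin n) (Fin n) ℂ
  | Letter.L => fun k l => (aL n k l : ℂ) * exL δ n k l t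
  | Letter.R => fun k l => (aR k l : ℂ) * exR δ n k l t
  | _ => 0

/-- the analytic family of traces -/
def ft (δ : ℝ) (n : ℕ) (w : List Letter) (t : ℂ) : ℂ := ((w.map (fm δ n t)).prod).trace

variable {δ : ℝ}

lemma ph_bound {x y : ℝ} {n : ℕ} (hδ : 0 ≤ δ ∧ δ ≤ 1) (hn : 1 ≤ n) (hx : 0 ≤ x ∧ x ≤ n - 1)
    (hy : 0 ≤ y ∧ y ≤ n - 1) : |ph x y δ| ≤ n ^ 2 := by
  unfold ph
  have hn' : (1 : ℝ) ≤ n := by exact_mod_cast hn
  rw [abs_mul]
  have e1 : |x - δ| ≤ n := by rw [abs_le]; constructor <;> linarith [hδ.1, hδ.2, hx.1, hx.2]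
  have e2 : |y - δ| ≤ n := by rw [abs_le]; constructor <;> linarith [hδ.1, hδ.2, hy.1, hy.2]
  calc |x - δ| * |y - δ| ≤ n * n := by gcongr
    _ = _ := by ring

lemma cast_le {n k : ℕ} (hk : k < n) : 0 ≤ (k : ℝ) ∧ (k : ℝ) ≤ n - 1 := by
  have h1 : (k : ℝ) + 1 ≤ n := by exact_mod_cast hk
  exact ⟨by positivity, by linarith⟩

lemma cast_le' {n k : ℕ} (hk : k < n) : 0 ≤ (n : ℝ) - 1 - k ∧ (n : ℝ) - 1 - k ≤ n - 1 := by
  have h1 : (k : ℝ) + 1 ≤ n := by exact_mod_cast hk
  have h2 : (0 : ℝ) ≤ k := by positivity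
  exact ⟨by linarith, by linarith⟩

lemma exp_fac {p : ℝ} {n : ℕ} (hp : |p| ≤ n ^ 2) (t : ℂ) :
    ‖Complex.exp (Complex.I * ((p : ℂ) * t))‖ ≤ Real.exp (n ^ 2 * ‖t‖) ∧
    ‖Complex.exp (-(Complex.I * ((p : ℂ) * t)))‖ ≤ Real.exp (n ^ 2 * ‖t‖) := by
  have h2 : ‖Complex.I * ((p : ℂ) * t)‖ ≤ n ^ 2 * ‖t‖ := by
    rw [norm_mul, Complex.norm_I, one_mul, norm_mul, Complex.norm_real, Real.norm_eq_abs]
    exact mul_le_mul_of_nonneg_right hp (norm_nonneg t)
  constructor
  · exact (Complex.norm_exp_le_exp_norm _).trans (Real.exp_le_exp.2 h2)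
  · refine (Complex.norm_exp_le_exp_norm _).trans (Real.exp_le_exp.2 ?_)
    rw [norm_neg]; exact h2

lemma total_bound {n m : ℕ} (hm : m ≤ n) (t : ℂ) :
    Real.exp (n ^ 2 * ‖t‖) * Real.exp (3 * (n * ‖t‖)) ^ m ≤ Real.exp (4 * (n ^ 2 * ‖t‖)) := by
  rw [← Real.exp_nat_mul, ← Real.exp_add]
  apply Real.exp_le_exp.2
  have hm' : (m : ℝ) ≤ n := by exact_mod_cast hm
  have h2 : (m : ℝ) * (3 * (n * ‖t‖)) ≤ 3 * (n ^ 2 * ‖t‖) := by
    calc (m : ℝ) * (3 * (n * ‖t‖)) ≤ n * (3 * (n * ‖t‖)) := by gcongr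
      _ = _ := by ring
  linarith

lemma exR_bound (hδ : 0 ≤ δ ∧ δ ≤ 1) {n k l : ℕ} (hk : k < n) (hl : l ≤ k) {t : ℂ} (ht : n * ‖t‖ ≤ 1 / 4) :
    ‖exR δ n k l t‖ ≤ Real.exp (4 * (n ^ 2 * ‖t‖)) := by
  have hfac : ∀ j ∈ range (k - l), ‖(sc ((((j : ℝ) + 1 : ℝ) : ℂ) * t))⁻¹‖
      ≤ Real.exp (3 * (n * ‖t‖)) := by
    intro j hj
    have hj' := Finset.mem_range.1 hj
    have f1 := (sc_fac ht (c0_bound (n := n) (j := j) (by omega))).2.2
    refine f1.trans (Real.exp_le_exp.2 ?_)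
    have : 0 ≤ n * ‖t‖ := by positivity
    linarith
  unfold exR
  rw [norm_mul, norm_prod]
  have hl' : l < n := by omega
  calc _ ≤ Real.exp (n ^ 2 * ‖t‖) * ∏ j ∈ range (k - l), Real.exp (3 * (n * ‖t‖)) := by
        apply mul_le_mul (exp_fac (ph_bound hδ (by omega) (cast_le' hl') (cast_le' hk)) t).1 _ (Finset.prod_nonneg (fun _ _ => norm_nonneg _))
          (Real.exp_pos _).le
        exact Finset.prod_le_prod (fun _ _ => norm_nonneg _) hfac
    _ ≤ _ := by
        rw [Finset.prod_const, Finset.card_range]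
        exact total_bound (by omega) t

lemma exL_bound (hδ : 0 ≤ δ ∧ δ ≤ 1) {n k l : ℕ} (hl : l < n) (hk : k ≤ l) {t : ℂ} (ht : n * ‖t‖ ≤ 1 / 4) :
    ‖exL δ n k l t‖ ≤ Real.exp (4 * (n ^ 2 * ‖t‖)) := by
  have hfac : ∀ j ∈ range (l - k), ‖sc ((((k : ℝ) + 1 + j : ℝ) : ℂ) * t)
      * sc ((((n : ℝ) - 1 - k - j : ℝ) : ℂ) * t)
      * (sc ((((j : ℝ) + 1 : ℝ) : ℂ) * t))⁻¹‖ ≤ Real.exp (3 * (n * ‖t‖)) := by
    intro j hj
    have hj' := Finset.mem_range.1 hj
    have f1 := (sc_fac ht (c0_bound (n := n) (j := j) (by omega))).2.2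
    have b0 : |(k : ℝ) + 1 + j| ≤ n := by
      have := Pool.Agent.H759.KP.c1_bound (n := n) (j := j) (m := k) (by omega)
      rw [show (k : ℝ) + 1 + j = k + j + 1 by ring]
      exact this
    have f3 := (sc_fac ht (c2_bound (n := n) (k := k) (j := j) (by omega))).2.1
    have f0 := (sc_fac ht b0).2.1
    rw [norm_mul, norm_mul]
    calc _ ≤ Real.exp (n * ‖t‖) * Real.exp (n * ‖t‖) * Real.exp (n * ‖t‖) := by
          gcongr
      _ = _ := by
          rw [← Real.exp_add, ← Real.exp_add]; congr 1; ring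
  unfold exL
  rw [norm_mul, norm_prod]
  have hk' : k < n := by omega
  calc _ ≤ Real.exp (n ^ 2 * ‖t‖) * ∏ j ∈ range (l - k), Real.exp (3 * (n * ‖t‖)) := by
        apply mul_le_mul (exp_fac (ph_bound hδ (by omega) (cast_le hk') (cast_le hl)) t).2 _ (Finset.prod_nonneg (fun _ _ => norm_nonneg _))
          (Real.exp_pos _).le
        exact Finset.prod_le_prod (fun _ _ => norm_nonneg _) hfac
    _ ≤ _ := by
        rw [Finset.prod_const, Finset.card_range]
        exact total_bound (by omega) t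

lemma fm_bound (hδ : 0 ≤ δ ∧ δ ≤ 1) {n : ℕ} {t : ℂ} (ht : n * ‖t‖ ≤ 1 / 4) (x : Letter) (k l : Fin n) :
    ‖fm δ n t x k l‖ ≤ am n x k l * Real.exp (4 * (n ^ 2 * ‖t‖)) := by
  have hk := k.2
  have hl := l.2
  cases x with
  | L =>
    show ‖(aL n k l : ℂ) * exL δ n k l t‖ ≤ aL n k l * _
    rw [norm_mul, Complex.norm_real, Real.norm_eq_abs, abs_of_nonneg (aL_nonneg _ _ _)]
    by_cases h : (k : ℕ) ≤ l
    · exact mul_le_mul_of_nonneg_left (exL_bound hδ hl h ht) (aL_nonneg _ _ _)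
    · have : aL n k l = 0 := if_neg h
      rw [this]; simp
  | R =>
    show ‖(aR k l : ℂ) * exR δ n k l t‖ ≤ aR k l * _
    rw [norm_mul, Complex.norm_real, Real.norm_eq_abs, abs_of_nonneg (aR_nonneg _ _)]
    by_cases h : (l : ℕ) ≤ k
    · exact mul_le_mul_of_nonneg_left (exR_bound hδ hk h ht) (aR_nonneg _ _)
    · have : aR k l = 0 := by
        unfold aR
        rw [Nat.choose_eq_zero_of_lt (by omega)]; simp
      rw [this]; simp
  | L' => show ‖(0 : ℂ)‖ ≤ 0 * _; simp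
  | R' => show ‖(0 : ℂ)‖ ≤ 0 * _; simp

lemma prod_bound (hδ : 0 ≤ δ ∧ δ ≤ 1) {n : ℕ} {t : ℂ} (ht : n * ‖t‖ ≤ 1 / 4) (w : List Letter) (k l : Fin n) :
    ‖(w.map (fm δ n t)).prod k l‖
      ≤ (w.map (am n)).prod k l * Real.exp (4 * (n ^ 2 * ‖t‖)) ^ w.length := by
  induction w generalizing k with
  | nil =>
    rw [List.map_nil, List.prod_nil, List.map_nil, List.prod_nil, Matrix.one_apply,
      Matrix.one_apply]
    split_ifs <;> simp
  | cons x w ih =>
    rw [List.map_cons, List.prod_cons, List.map_cons, List.prod_cons, Matrix.mul_apply,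
      Matrix.mul_apply, List.length_cons, pow_succ, Finset.sum_mul]
    refine (norm_sum_le _ _).trans (Finset.sum_le_sum ?_)
    intro j _
    rw [norm_mul]
    have h1 := fm_bound hδ ht x k j
    have h2 := ih j
    calc _ ≤ (am n x k j * Real.exp (4 * (n ^ 2 * ‖t‖)))
          * ((w.map (am n)).prod j l * Real.exp (4 * (n ^ 2 * ‖t‖)) ^ w.length) := by
          apply mul_le_mul h1 h2 (norm_nonneg _)
          exact mul_nonneg (am_nonneg n x k j) (Real.exp_pos _).le
      _ = _ := by ring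

lemma ft_bound (hδ : 0 ≤ δ ∧ δ ≤ 1) {n : ℕ} {t : ℂ} (ht : n * ‖t‖ ≤ 1 / 4) (w : List Letter) :
    ‖ft δ n w t‖ ≤ F0 n w * Real.exp (4 * w.length * (n ^ 2 * ‖t‖)) := by
  unfold ft F0 Matrix.trace
  rw [Finset.sum_mul]
  refine (norm_sum_le _ _).trans (Finset.sum_le_sum ?_)
  intro j _
  have := prod_bound hδ ht w j j
  rw [← Real.exp_nat_mul] at this
  rw [show 4 * (w.length : ℝ) * (n ^ 2 * ‖t‖) = w.length * (4 * (n ^ 2 * ‖t‖)) by ring]
  exact this

lemma fm_zero (n : ℕ) (x : Letter) : fm δ n 0 x = (am n x).map (fun r : ℝ => (r : ℂ)) := by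
  ext k l
  cases x with
  | L =>
    show (aL n k l : ℂ) * exL δ n k l 0 = (aL n k l : ℂ)
    simp [exL, sc_zero]
  | R =>
    show (aR k l : ℂ) * exR δ n k l 0 = (aR k l : ℂ)
    simp [exR, sc_zero]
  | L' => show (0 : ℂ) = ((0 : ℝ) : ℂ); simp
  | R' => show (0 : ℂ) = ((0 : ℝ) : ℂ); simp

lemma ft_zero (n : ℕ) (w : List Letter) : ft δ n w 0 = (F0 n w : ℂ) := by
  have h : (w.map (fm δ n 0)).prod = ((w.map (am n)).prod).map (fun r : ℝ => (r : ℂ)) := by
    induction w with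
    | nil =>
      rw [List.map_nil, List.prod_nil, List.map_nil, List.prod_nil]
      ext i j
      rw [Matrix.map_apply, Matrix.one_apply, Matrix.one_apply]
      split_ifs <;> simp
    | cons x w ih =>
      rw [List.map_cons, List.prod_cons, List.map_cons, List.prod_cons, ih, fm_zero]
      ext i j
      rw [Matrix.mul_apply, Matrix.map_apply, Matrix.mul_apply]
      simp
  unfold ft F0
  rw [h]
  unfold Matrix.trace
  simp

lemma fm_diff {n : ℕ} {ρ : ℝ} (hρ : n * ρ ≤ 1 / 4) (x : Letter) (k l : Fin n) :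
    DifferentiableOn ℂ (fun t => fm δ n t x k l) (ball 0 ρ) := by
  have hk := k.2
  have hl := l.2
  have hball : ∀ t ∈ ball (0 : ℂ) ρ, n * ‖t‖ ≤ 1 / 4 := by
    intro t ht
    rw [mem_ball_zero_iff] at ht
    have : (0 : ℝ) ≤ n := by positivity
    nlinarith
  have hsc : ∀ c : ℂ, Differentiable ℂ (fun t : ℂ => sc (c * t)) := by
    intro c
    exact sc_diff.comp (by fun_prop)
  cases x with
  | L =>
    show DifferentiableOn ℂ (fun t => (aL n k l : ℂ) * exL δ n k l t) (ball 0 ρ)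
    by_cases h : (k : ℕ) ≤ l
    · unfold exL
      apply DifferentiableOn.const_mul
      apply DifferentiableOn.mul
      · exact (by fun_prop : Differentiable ℂ _).differentiableOn
      · apply DifferentiableOn.fun_finsetProd
        intro j hj
        have hj' := Finset.mem_range.1 hj
        apply DifferentiableOn.mul
        · exact ((hsc _).mul (hsc _)).differentiableOn
        · apply DifferentiableOn.fun_inv (hsc _).differentiableOn
          intro t ht
          exact (sc_fac (hball t ht) (c0_bound (n := n) (j := j) (by omega))).1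
    · have : aL n k l = 0 := if_neg h
      rw [this]
      simp
  | R =>
    show DifferentiableOn ℂ (fun t => (aR k l : ℂ) * exR δ n k l t) (ball 0 ρ)
    by_cases h : (l : ℕ) ≤ k
    · unfold exR
      apply DifferentiableOn.const_mul
      apply DifferentiableOn.mul
      · exact (by fun_prop : Differentiable ℂ _).differentiableOn
      · apply DifferentiableOn.fun_finsetProd
        intro j hj
        have hj' := Finset.mem_range.1 hj
        apply DifferentiableOn.fun_inv (hsc _).differentiableOn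
        intro t ht
        exact (sc_fac (hball t ht) (c0_bound (n := n) (j := j) (by omega))).1
    · have : aR k l = 0 := by
        unfold aR
        rw [Nat.choose_eq_zero_of_lt (by omega)]; simp
      rw [this]
      simp
  | L' => exact differentiableOn_const (0 : ℂ)
  | R' => exact differentiableOn_const (0 : ℂ)

lemma prod_diff {n : ℕ} {ρ : ℝ} (hρ : n * ρ ≤ 1 / 4) (w : List Letter) (k l : Fin n) :
    DifferentiableOn ℂ (fun t => (w.map (fm δ n t)).prod k l) (ball 0 ρ) := by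
  induction w generalizing k with
  | nil => exact differentiableOn_const _
  | cons x w ih =>
    have : (fun t => ((x :: w).map (fm δ n t)).prod k l)
        = fun t => ∑ j, fm δ n t x k j * (w.map (fm δ n t)).prod j l := by
      ext t
      rw [List.map_cons, List.prod_cons, Matrix.mul_apply]
    rw [this]
    apply DifferentiableOn.fun_sum
    intro j _
    exact (fm_diff hρ x k j).mul (ih j)

lemma ft_diff {n : ℕ} {ρ : ℝ} (hρ : n * ρ ≤ 1 / 4) (w : List Letter) :
    DifferentiableOn ℂ (ft δ n w) (ball 0 ρ) := by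
  have : ft δ n w = fun t => ∑ j, (w.map (fm δ n t)).prod j j := rfl
  rw [this]
  apply DifferentiableOn.fun_sum
  intro j _
  exact prod_diff hρ w j j

end

end Pool.Agent.H759.QP
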