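import Pool.Agent.H759.QP.Pot

/-!
The symbol of the product matrix has no zeros.
-/

namespace Pool.Agent.H759.QP

open Finset MvPolynomial Pool.Agent.H759.PTB

noncomputable section

variable {δ : ℝ}

/-- the product matrix -/
def Mt (δ : ℝ) (n : ℕ) (t : ℂ) : List Letter → ℕ → ℕ → ℂ
  | [], k, l => if k = l then 1 else 0
  | x :: w, k, l => ∑ j ∈ range n, ((ax n x k j : ℂ) * exx δ n t x k j) * Mt δ n t w j l

lemma fm_eq (n : ℕ) (t : ℂ) {x : Letter} (hx : x = Letter.L ∨ x = Letter.R) (k l : Fin n) :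
    fm δ n t x k l = (ax n x k l : ℂ) * exx δ n t x k l := by
  rcases hx with rfl | rfl <;> rfl

lemma Mt_eq (n : ℕ) (t : ℂ) {w : List Letter} (hw : ∀ x ∈ w, x = Letter.L ∨ x = Letter.R)
    (k l : Fin n) : (w.map (fm δ n t)).prod k l = Mt δ n t w k l := by
  induction w generalizing k with
  | nil =>
    rw [List.map_nil, List.prod_nil, Matrix.one_apply]
    unfold Mt
    by_cases h : k = l
    · rw [if_pos h, if_pos (by rw [h])]
    · rw [if_neg h, if_neg (fun h' => h (Fin.ext h'))]
  | cons x w ih =>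
    have hw' : ∀ x ∈ w, x = Letter.L ∨ x = Letter.R := fun y hy => hw y (List.mem_cons_of_mem _ hy)
    rw [List.map_cons, List.prod_cons, Matrix.mul_apply]
    unfold Mt
    rw [← Fin.sum_univ_eq_sum_range
      (fun j => ((ax n x k j : ℂ) * exx δ n t x k j) * Mt δ n t w j l) n]
    apply Finset.sum_congr rfl
    intro j _
    rw [ih hw' j, fm_eq n t (hw x List.mem_cons_self)]

lemma ft_eq (n : ℕ) (t : ℂ) {w : List Letter} (hw : ∀ x ∈ w, x = Letter.L ∨ x = Letter.R) :
    ft δ n w t = ∑ k ∈ range n, Mt δ n t w k k := by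
  unfold ft Matrix.trace
  rw [← Fin.sum_univ_eq_sum_range (fun k => Mt δ n t w k k) n]
  apply Finset.sum_congr rfl
  intro k _
  rw [Matrix.diag_apply, Mt_eq n t hw]

lemma Ew_shift (n : ℕ) (t : ℂ) (w : List Letter) : ∀ (s : ℕ) {ν ν' : ℕ →₀ ℕ},
    (∀ j, s ≤ j → ν j = ν' j) → Ew δ n t w s ν = Ew δ n t w s ν' := by
  induction w with
  | nil => intro s ν ν' _; rfl
  | cons x w ih =>
    intro s ν ν' h
    show exx δ n t x (ν s) (ν (s + 1)) * Ew δ n t w (s + 1) ν
      = exx δ n t x (ν' s) (ν' (s + 1)) * Ew δ n t w (s + 1) ν'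
    rw [ih (s + 1) (fun j hj => h j (by omega)), h s le_rfl, h (s + 1) (by omega)]

/-- a row of the product matrix -/
lemma row_eq (z : ℂ) {n m : ℕ} (hn : n = m + 1) (t : ℂ) {w : List Letter}
    (hw : ∀ x ∈ w, x = Letter.L ∨ x = Letter.R) :
    ∀ (s k : ℕ), k ≤ m → ∀ G : (ℕ →₀ ℕ) → ℂ,
      (∀ ν ν' : ℕ →₀ ℕ, (∀ j ≤ s, ν j = ν' j) → G ν = G ν') →
      LF (fun ν => G ν * Ew δ n t w s ν) (monomial (Finsupp.single s k) 1
        * ((phi z w s).1 ^ (m - k) * (phi z w s).2 ^ k))
        = G (Finsupp.single s k) * ∑ l ∈ range n, Mt δ n t w k l * z ^ l := by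
  induction w with
  | nil =>
    intro s k hk G _
    have e1 : (monomial (Finsupp.single s k) 1 * ((phi z [] s).1 ^ (m - k) * (phi z [] s).2 ^ k)
        : MvPolynomial ℕ ℂ) = monomial (Finsupp.single s k) (z ^ k) := by
      show monomial (Finsupp.single s k) 1 * ((1 : MvPolynomial ℕ ℂ) ^ (m - k) * (C z) ^ k) = _
      rw [one_pow, one_mul, ← map_pow, mul_comm, C_mul_monomial, mul_one]
    rw [e1, LF_monomial]
    have e2 : ∑ l ∈ range n, Mt δ n t [] k l * z ^ l = z ^ k := by
      rw [Finset.sum_eq_single k]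
      · show (if k = k then (1 : ℂ) else 0) * z ^ k = z ^ k
        rw [if_pos rfl, one_mul]
      · intro l _ hl
        show (if k = l then (1 : ℂ) else 0) * z ^ l = 0
        rw [if_neg (Ne.symm hl), zero_mul]
      · intro h
        exfalso; apply h
        rw [Finset.mem_range]; omega
    rw [e2]
    show z ^ k * (G (Finsupp.single s k) * 1) = _
    ring
  | cons x w ih =>
    intro s k hk G hG
    have hw' : ∀ x ∈ w, x = Letter.L ∨ x = Letter.R := fun y hy => hw y (List.mem_cons_of_mem _ hy)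
    rw [phi_expand z hn (hw x List.mem_cons_self) w s k hk, Finset.mul_sum, map_sum]
    have hterm : ∀ j ∈ range n, LF (fun ν => G ν * Ew δ n t (x :: w) s ν)
        (monomial (Finsupp.single s k) 1 * (C (ax n x k j : ℂ)
          * (monomial (Finsupp.single (s + 1) j) 1
            * ((phi z w (s + 1)).1 ^ (m - j) * (phi z w (s + 1)).2 ^ j))))
        = G (Finsupp.single s k) * ∑ l ∈ range n,
          (((ax n x k j : ℂ) * exx δ n t x k j) * Mt δ n t w j l) * z ^ l := by
      intro j hj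
      have hj' : j ≤ m := by have := Finset.mem_range.1 hj; omega
      have e1 : (monomial (Finsupp.single s k) 1 * (C (ax n x k j : ℂ)
          * (monomial (Finsupp.single (s + 1) j) 1
            * ((phi z w (s + 1)).1 ^ (m - j) * (phi z w (s + 1)).2 ^ j))) : MvPolynomial ℕ ℂ)
          = (ax n x k j : ℂ) • (monomial (Finsupp.single s k) 1
            * (monomial (Finsupp.single (s + 1) j) 1
            * ((phi z w (s + 1)).1 ^ (m - j) * (phi z w (s + 1)).2 ^ j))) := by
        rw [smul_eq_C_mul]; ring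
      rw [e1, map_smul, LF_shift, smul_eq_mul]
      have e2 : LF (fun ν => G (ν + Finsupp.single s k) * Ew δ n t (x :: w) s
            (ν + Finsupp.single s k)) (monomial (Finsupp.single (s + 1) j) 1
            * ((phi z w (s + 1)).1 ^ (m - j) * (phi z w (s + 1)).2 ^ j))
          = LF (fun ν => (G (ν + Finsupp.single s k) * exx δ n t x (ν s + k) (ν (s + 1)))
            * Ew δ n t w (s + 1) ν) (monomial (Finsupp.single (s + 1) j) 1
            * ((phi z w (s + 1)).1 ^ (m - j) * (phi z w (s + 1)).2 ^ j)) := by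
        apply LF_congr
        intro ν _
        show G (ν + Finsupp.single s k) * (exx δ n t x ((ν + Finsupp.single s k : ℕ →₀ ℕ) s)
          ((ν + Finsupp.single s k : ℕ →₀ ℕ) (s + 1))
          * Ew δ n t w (s + 1) (ν + Finsupp.single s k)) = _
        rw [Ew_shift n t w (s + 1) (ν := ν + Finsupp.single s k) (ν' := ν) (by
          intro i hi
          rw [Finsupp.add_apply, Finsupp.single_eq_of_ne (by omega), add_zero]),
          Finsupp.add_apply, Finsupp.single_eq_same, Finsupp.add_apply,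
          Finsupp.single_eq_of_ne (by omega : s + 1 ≠ s), add_zero]
        ring
      rw [e2, ih hw' (s + 1) j hj' (fun ν => G (ν + Finsupp.single s k)
        * exx δ n t x (ν s + k) (ν (s + 1))) (by
          intro ν ν' h
          have h1 : G (ν + Finsupp.single s k) = G (ν' + Finsupp.single s k) := by
            apply hG
            intro i hi
            rw [Finsupp.add_apply, Finsupp.add_apply, h i (by omega)]
          show G (ν + Finsupp.single s k) * exx δ n t x (ν s + k) (ν (s + 1))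
            = G (ν' + Finsupp.single s k) * exx δ n t x (ν' s + k) (ν' (s + 1))
          rw [h1, h s (by omega), h (s + 1) le_rfl])]
      have e3 : G (Finsupp.single (s + 1) j + Finsupp.single s k) = G (Finsupp.single s k) := by
        apply hG
        intro i hi
        rw [Finsupp.add_apply, Finsupp.single_eq_of_ne (by omega), zero_add]
      rw [e3, Finsupp.single_eq_same, Finsupp.single_eq_of_ne (by omega : s ≠ s + 1), zero_add,
        Finset.mul_sum, Finset.mul_sum, Finset.mul_sum]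
      apply Finset.sum_congr rfl
      intro l _
      ring
    rw [Finset.sum_congr rfl hterm, ← Finset.mul_sum, Finset.sum_comm]
    congr 1
    apply Finset.sum_congr rfl
    intro l _
    show _ = (∑ j ∈ range n, ((ax n x k j : ℂ) * exx δ n t x k j) * Mt δ n t w j l) * z ^ l
    rw [Finset.sum_mul]

/-- the symbol -/
lemma sy_eq (z : ℂ) {n m : ℕ} (hn : n = m + 1) (t : ℂ) {w : List Letter}
    (hw : ∀ x ∈ w, x = Letter.L ∨ x = Letter.R) {l : List (ℂ × ℂ)} (hl : l.length = m) :
    (sy m (Mt δ n t w) l).eval z = LF (Ew δ n t w 0) (l.map (Pu z w)).prod := by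
  have h1 : (l.map (Pu z w)).prod = (l.map (fun u => C u.1 * (phi z w 0).1
      + C u.2 * (X 0 * (phi z w 0).2))).prod := rfl
  rw [h1, homog, map_sum, hl]
  unfold sy
  rw [Polynomial.eval_finsetSum]
  apply Finset.sum_congr rfl
  intro k hk
  have hk' : k ≤ m := by have := Finset.mem_range.1 hk; omega
  have h2 := row_eq (δ := δ) z hn t hw 0 k hk' (fun _ => 1) (fun _ _ _ => rfl)
  simp only [one_mul] at h2
  have e1 : (C ((cf l).coeff k) * ((phi z w 0).1 ^ (m - k) * (X 0 * (phi z w 0).2) ^ k)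
      : MvPolynomial ℕ ℂ) = (cf l).coeff k • (monomial (Finsupp.single 0 k) 1
        * ((phi z w 0).1 ^ (m - k) * (phi z w 0).2 ^ k)) := by
    rw [smul_eq_C_mul, mul_pow, X_pow_eq_monomial]
    ring
  rw [e1, map_smul, h2, smul_eq_mul, Polynomial.eval_mul, Polynomial.eval_C]
  congr 1
  unfold rwp
  rw [Polynomial.eval_finsetSum, hn]
  apply Finset.sum_congr rfl
  intro j _
  rw [Polynomial.eval_mul, Polynomial.eval_C, Polynomial.eval_pow, Polynomial.eval_X]

lemma Mt_cons (n : ℕ) (t : ℂ) (x : Letter) (w : List Letter) (k l : ℕ) :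
    Mt δ n t (x :: w) k l = ∑ j ∈ range n, ((ax n x k j : ℂ) * exx δ n t x k j) * Mt δ n t w j l := rfl

lemma Mt_append (n : ℕ) (t : ℂ) (w₁ w₂ : List Letter) : ∀ k < n, ∀ l : ℕ,
    Mt δ n t (w₁ ++ w₂) k l = ∑ j ∈ range n, Mt δ n t w₁ k j * Mt δ n t w₂ j l := by
  induction w₁ with
  | nil =>
    intro k hk l
    rw [List.nil_append, Finset.sum_eq_single k]
    · simp [Mt]
    · intro j _ hj
      simp [Mt, Ne.symm hj]
    · intro h
      exact absurd (Finset.mem_range.2 hk) h
  | cons x w ih =>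
    intro k _ l
    rw [List.cons_append, Mt_cons,
      Finset.sum_congr rfl (fun i hi => by rw [ih i (Finset.mem_range.1 hi) l])]
    simp only [Mt_cons, Finset.mul_sum, Finset.sum_mul]
    rw [Finset.sum_comm]
    refine Finset.sum_congr rfl fun j _ => Finset.sum_congr rfl fun i _ => ?_
    ring

/-- the symbol of a word has no zeros -/
lemma PP_word (hδ : 0 ≤ δ ∧ δ ≤ 1) {n m : ℕ} (hn : n = m + 1) (hm1 : 1 ≤ m) {w : List Letter}
    (hw : ∀ x ∈ w, x = Letter.L ∨ x = Letter.R)
    (hL : Letter.L ∈ w) (hR : Letter.R ∈ w) {t : ℂ}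
    (ht : 336 * (n * ‖t‖) * (12 * Kw w ^ 2) ^ 2 * w.length ≤ 1) :
    PP m (Mt δ n t w) := by
  subst hn
  intro l hl hRp z hz
  rw [sy_eq z rfl t hw hl]
  have hK : 1 ≤ Kw w := by
    obtain ⟨⟨h1, _⟩, _⟩ := mt_pos hw
    exact h1.trans ((le_max_left _ _).trans (le_max_left _ _))
  have hG := good_all hδ (ι := Fin l.length) (P := fun i => Pu z w l[i.1]) (w := w) (n := m + 1)
    (m := m) rfl hm1 (t := t) (Λ0 := 12 * Kw w ^ 2) (by nlinarith)
    (fun i => Pu_supp z hw l[i.1])
    (fun i => Pu_N hw hL hR hz (hRp _ (List.getElem_mem _)))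
    (List.length_pos_of_mem hL) ht m
  have h1 := (hG univ (by rw [Finset.card_univ, Fintype.card_fin, hl]) 0 0 rfl
    (by rw [Finset.card_univ, Fintype.card_fin, hl, add_zero])).1
  have h2 : pr (fun i : Fin l.length => Pu z w l[i.1]) univ 0 = (l.map (Pu z w)).prod := by
    unfold pr
    rw [show (MvPolynomial.monomial 0 (1 : ℂ) : MvPolynomial ℕ ℂ) = 1 from rfl, one_mul]
    exact Fin.prod_univ_fun_getElem l (Pu z w)
  rwa [h2] at h1

/-- the symbol of a product of blocks has no zeros -/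
lemma PP_blocks (hδ : 0 ≤ δ ∧ δ ≤ 1) {n m : ℕ} (hn : n = m + 1) (hm1 : 1 ≤ m) {t : ℂ} (b : List Letter) (bs : List (List Letter))
    (h : ∀ c ∈ b :: bs, (∀ x ∈ c, x = Letter.L ∨ x = Letter.R) ∧ Letter.L ∈ c ∧ Letter.R ∈ c ∧
      336 * (n * ‖t‖) * (12 * Kw c ^ 2) ^ 2 * c.length ≤ 1) :
    PP m (Mt δ n t (b :: bs).flatten) := by
  induction bs generalizing b with
  | nil =>
    obtain ⟨h1, h2, h3, h4⟩ := h b List.mem_cons_self
    simpa using PP_word hδ hn hm1 h1 h2 h3 h4
  | cons c bs ih =>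
    obtain ⟨h1, h2, h3, h4⟩ := h b List.mem_cons_self
    have h5 := ih c (fun d hd => h d (List.mem_cons_of_mem _ hd))
    have h6 := PP_mm (PP_word hδ hn hm1 h1 h2 h3 h4) h5
    refine PP_congr ?_ h6
    intro k hk l _
    rw [List.flatten_cons, Mt_append n t b _ k (by omega) l]
    unfold mm
    rw [hn]

end

end Pool.Agent.H759.QP
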