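import Pool.Agent.H759.QP.Fam

/-!
The potential of a word: ratios, nonvanishing, bounds of the ratios.
-/

namespace Pool.Agent.H759.QP

open Finset MvPolynomial Pool.Agent.H759.PTB
open Pool.Agent.H759.KP (sc_fac c0_bound c2_bound)

noncomputable section

/-- analytic factor of a letter -/
def exx (δ : ℝ) (n : ℕ) (t : ℂ) : Letter → ℕ → ℕ → ℂ
  | Letter.R => fun k l => exR δ n k l t
  | Letter.L => fun k l => exL δ n k l t
  | _ => fun _ _ => 1

/-- potential of a word -/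
def Ew (δ : ℝ) (n : ℕ) (t : ℂ) : List Letter → ℕ → (ℕ →₀ ℕ) → ℂ
  | [], _, _ => 1
  | x :: w, s, ν => exx δ n t x (ν s) (ν (s + 1)) * Ew δ n t w (s + 1) ν

/-- ratio -/
def qRa (δ : ℝ) (n : ℕ) (t : ℂ) (k l : ℕ) : ℂ :=
  Complex.exp (Complex.I * ln t 0 1 (-(n - 1 - δ)) k l) * (sc (ln t 1 (-1) 1 k l))⁻¹

/-- ratio -/
def qRb (δ : ℝ) (n : ℕ) (t : ℂ) (k l : ℕ) : ℂ :=
  Complex.exp (Complex.I * ln t 1 1 (1 - 2 * (n - 1 - δ)) k l)

/-- ratio -/
def qLa (δ : ℝ) (n : ℕ) (t : ℂ) (k l : ℕ) : ℂ :=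
  Complex.exp (-Complex.I * ln t 1 0 (-δ) k l)
    * (sc (ln t 0 1 1 k l)
    * (sc (ln t 0 (-1) (n - 1) k l)
    * (sc (ln t (-1) 1 1 k l))⁻¹))

/-- ratio -/
def qLb (δ : ℝ) (n : ℕ) (t : ℂ) (k l : ℕ) : ℂ :=
  Complex.exp (-Complex.I * ln t 1 1 (1 - 2 * δ) k l)
    * ((sc (ln t 0 1 1 k l) * (sc (ln t 1 0 1 k l))⁻¹)
    * (sc (ln t 0 (-1) (n - 1) k l) * (sc (ln t (-1) 0 (n - 1) k l))⁻¹))

/-- the ratios -/
def rt (δ : ℝ) (n : ℕ) (t : ℂ) : Letter → ℕ → ℕ → ℕ → ℕ → ℂ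
  | Letter.R => fun a b k l => if a = 0 then 1 else if b = 0 then qRa δ n t k l else qRb δ n t k l
  | Letter.L => fun a b k l => if b = 0 then 1 else if a = 0 then qLa δ n t k l else qLb δ n t k l
  | _ => fun _ _ _ _ => 1

/-- the ratio of a word -/
def Qf (δ : ℝ) (n : ℕ) (t : ℂ) : List Letter → ℕ → (ℕ →₀ ℕ) → (ℕ →₀ ℕ) → ℂ
  | [], _, _, _ => 1
  | x :: w, s, b, ν => rt δ n t x (b s) (b (s + 1)) (ν s) (ν (s + 1)) * Qf δ n t w (s + 1) b ν

variable {δ : ℝ}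

lemma ph_R1 (n k l : ℕ) (t : ℂ) :
    Complex.I * ((ph (n - 1 - l) (n - 1 - (k + 1 : ℕ)) δ : ℂ) * t)
    = Complex.I * ((ph (n - 1 - l) (n - 1 - k) δ : ℂ) * t)
      + Complex.I * ln t 0 1 (-(n - 1 - δ)) k l := by
  unfold ph ln
  push_cast
  ring

lemma ph_R2 (n k l : ℕ) (t : ℂ) :
    Complex.I * ((ph (n - 1 - (l + 1 : ℕ)) (n - 1 - (k + 1 : ℕ)) δ : ℂ) * t)
    = Complex.I * ((ph (n - 1 - l) (n - 1 - k) δ : ℂ) * t)
      + Complex.I * ln t 1 1 (1 - 2 * (n - 1 - δ)) k l := by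
  unfold ph ln
  push_cast
  ring

lemma ph_L1 (k l : ℕ) (t : ℂ) : -(Complex.I * ((ph k (l + 1 : ℕ) δ : ℂ) * t))
    = -(Complex.I * ((ph k l δ : ℂ) * t)) + -Complex.I * ln t 1 0 (-δ) k l := by
  unfold ph ln
  push_cast
  ring

lemma ph_L2 (k l : ℕ) (t : ℂ) : -(Complex.I * ((ph (k + 1 : ℕ) (l + 1 : ℕ) δ : ℂ) * t))
    = -(Complex.I * ((ph k l δ : ℂ) * t)) + -Complex.I * ln t 1 1 (1 - 2 * δ) k l := by
  unfold ph ln
  push_cast
  ring

lemma ratio_Ra {n k l : ℕ} (h : l ≤ k) (t : ℂ) :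
    exR δ n (k + 1) l t = exR δ n k l t * qRa δ n t k l := by
  obtain ⟨d, rfl⟩ := Nat.exists_eq_add_of_le h
  unfold exR qRa
  rw [ph_R1, Complex.exp_add, show l + d + 1 - l = d + 1 by omega, show l + d - l = d by omega,
    Finset.prod_range_succ]
  have e1 : ln t 1 (-1) 1 (l + d) l = (((d : ℝ) + 1 : ℝ) : ℂ) * t := by
    unfold ln; push_cast; ring
  rw [e1]
  ring

lemma ratio_Rb {n k l : ℕ} (h : l ≤ k) (t : ℂ) :
    exR δ n (k + 1) (l + 1) t = exR δ n k l t * qRb δ n t k l := by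
  obtain ⟨d, rfl⟩ := Nat.exists_eq_add_of_le h
  unfold exR qRb
  rw [ph_R2, Complex.exp_add, show l + d + 1 - (l + 1) = d by omega, show l + d - l = d by omega]
  ring

lemma ratio_La {n k l : ℕ} (h : k ≤ l) (t : ℂ) :
    exL δ n k (l + 1) t = exL δ n k l t * qLa δ n t k l := by
  obtain ⟨d, rfl⟩ := Nat.exists_eq_add_of_le h
  unfold exL qLa
  rw [ph_L1, Complex.exp_add, show k + d + 1 - k = d + 1 by omega, show k + d - k = d by omega,
    Finset.prod_range_succ]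
  have e1 : ln t (-1) 1 1 k (k + d) = (((d : ℝ) + 1 : ℝ) : ℂ) * t := by
    unfold ln; push_cast; ring
  have e3 : ln t 0 1 1 k (k + d) = (((k : ℝ) + 1 + d : ℝ) : ℂ) * t := by
    unfold ln; push_cast; ring
  have e4 : ln t 0 (-1) (n - 1) k (k + d) = (((n : ℝ) - 1 - k - d : ℝ) : ℂ) * t := by
    unfold ln; push_cast; ring
  rw [e1, e3, e4]
  ring

lemma ratio_Lb {n k l : ℕ} (h : k ≤ l) {t : ℂ}
    (h1 : sc (ln t 1 0 1 k l) ≠ 0) (h2 : sc (ln t (-1) 0 (n - 1) k l) ≠ 0) :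
    exL δ n (k + 1) (l + 1) t = exL δ n k l t * qLb δ n t k l := by
  obtain ⟨d, rfl⟩ := Nat.exists_eq_add_of_le h
  unfold exL qLb
  rw [ph_L2, Complex.exp_add, show k + d + 1 - (k + 1) = d by omega, show k + d - k = d by omega]
  have e1 : ln t 1 0 1 k (k + d) = (((k : ℝ) + 1 + ((0 : ℕ) : ℝ) : ℝ) : ℂ) * t := by
    unfold ln; push_cast; ring
  have e2 : ln t (-1) 0 (n - 1) k (k + d) = (((n : ℝ) - 1 - k - ((0 : ℕ) : ℝ) : ℝ) : ℂ) * t := by
    unfold ln; push_cast; ring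
  have e4 : ln t 0 1 1 k (k + d) = (((k : ℝ) + 1 + d : ℝ) : ℂ) * t := by
    unfold ln; push_cast; ring
  have e5 : ln t 0 (-1) (n - 1) k (k + d) = (((n : ℝ) - 1 - k - d : ℝ) : ℂ) * t := by
    unfold ln; push_cast; ring
  rw [e1] at h1
  rw [e2] at h2
  rw [e1, e2, e4, e5]
  have t1 := tele (f := fun j : ℕ => sc ((((k : ℝ) + 1 + j : ℝ) : ℂ) * t)) d h1
  have t2 := tele (f := fun j : ℕ => sc ((((n : ℝ) - 1 - k - j : ℝ) : ℂ) * t)) d h2
  simp only [Finset.prod_mul_distrib]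
  have g1 : ∏ j ∈ range d, sc (((((k + 1 : ℕ) : ℝ) + 1 + j : ℝ) : ℂ) * t)
      = ∏ j ∈ range d, sc ((((k : ℝ) + 1 + ((j + 1 : ℕ) : ℝ) : ℝ) : ℂ) * t) := by
    apply Finset.prod_congr rfl
    intro j _
    congr 3
    push_cast; ring
  have g2 : ∏ j ∈ range d, sc ((((n : ℝ) - 1 - ((k + 1 : ℕ) : ℝ) - j : ℝ) : ℂ) * t)
      = ∏ j ∈ range d, sc ((((n : ℝ) - 1 - k - ((j + 1 : ℕ) : ℝ) : ℝ) : ℂ) * t) := by
    apply Finset.prod_congr rfl
    intro j _
    congr 3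
    push_cast; ring
  rw [g1, g2, t1, t2]
  ring

lemma exR_ne {n k l : ℕ} (hk : k < n) {t : ℂ} (ht : n * ‖t‖ ≤ 1 / 4) : exR δ n k l t ≠ 0 := by
  unfold exR
  apply mul_ne_zero (Complex.exp_ne_zero _)
  rw [Finset.prod_ne_zero_iff]
  intro j hj
  have hj' := Finset.mem_range.1 hj
  exact inv_ne_zero (sc_fac ht (c0_bound (n := n) (j := j) (by omega))).1

lemma exL_ne {n k l : ℕ} (hl : l < n) {t : ℂ} (ht : n * ‖t‖ ≤ 1 / 4) : exL δ n k l t ≠ 0 := by
  unfold exL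
  apply mul_ne_zero (Complex.exp_ne_zero _)
  rw [Finset.prod_ne_zero_iff]
  intro j hj
  have hj' := Finset.mem_range.1 hj
  have b0 : |(k : ℝ) + 1 + j| ≤ n := by
    have := Pool.Agent.H759.KP.c1_bound (n := n) (j := j) (m := k) (by omega)
    rw [show (k : ℝ) + 1 + j = k + j + 1 by ring]
    exact this
  exact mul_ne_zero (mul_ne_zero (sc_fac ht b0).1
    (sc_fac ht (c2_bound (n := n) (k := k) (j := j) (by omega))).1)
    (inv_ne_zero (sc_fac ht (c0_bound (n := n) (j := j) (by omega))).1)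

lemma exx_ne {n k l : ℕ} (hk : k < n) (hl : l < n) {t : ℂ} (ht : n * ‖t‖ ≤ 1 / 4) (x : Letter) :
    exx δ n t x k l ≠ 0 := by
  cases x with
  | L => exact exL_ne hl ht
  | R => exact exR_ne hk ht
  | L' => exact one_ne_zero
  | R' => exact one_ne_zero

lemma Ew_ne {n : ℕ} {t : ℂ} (ht : n * ‖t‖ ≤ 1 / 4) (w : List Letter) :
    ∀ (s : ℕ) (ν : ℕ →₀ ℕ), (∀ j, ν j < n) → Ew δ n t w s ν ≠ 0 := by
  induction w with
  | nil => intro s ν _; exact one_ne_zero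
  | cons x w ih =>
    intro s ν hν
    exact mul_ne_zero (exx_ne (hν s) (hν (s + 1)) ht x) (ih (s + 1) ν hν)

lemma exx_ratio {n k l : ℕ} (hk : k + 1 < n) (_hl : l + 1 < n) {t : ℂ} (ht : n * ‖t‖ ≤ 1 / 4)
    (x : Letter) (hkl : al x k l) {a b : ℕ} (ha : a ≤ 1) (hb : b ≤ 1) (hab : al x a b) :
    exx δ n t x (k + a) (l + b) = exx δ n t x k l * rt δ n t x a b k l := by
  cases x with
  | L =>
    have hkl' : k ≤ l := hkl
    have hab' : a ≤ b := hab
    show exL δ n (k + a) (l + b) t = exL δ n k l t * (if b = 0 then 1 else if a = 0 then qLa δ n t k l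
      else qLb δ n t k l)
    interval_cases b
    · interval_cases a
      simp
    · rw [if_neg one_ne_zero]
      interval_cases a
      · rw [if_pos rfl]
        exact ratio_La hkl' t
      · rw [if_neg one_ne_zero]
        apply ratio_Lb hkl'
        · rw [ln_eq (d := (k : ℝ) + 1) (by ring)]
          exact (sc_fac ht (c0_bound (n := n) (j := k) (by omega))).1
        · rw [ln_eq (d := (n : ℝ) - 1 - k - (0 : ℕ)) (by push_cast; ring)]
          exact (sc_fac ht (Pool.Agent.H759.KP.c2_bound (n := n) (k := k) (j := 0) (by omega))).1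
  | R =>
    have hkl' : l ≤ k := hkl
    have hab' : b ≤ a := hab
    show exR δ n (k + a) (l + b) t = exR δ n k l t * (if a = 0 then 1 else if b = 0 then qRa δ n t k l
      else qRb δ n t k l)
    interval_cases a
    · interval_cases b
      simp
    · rw [if_neg one_ne_zero]
      interval_cases b
      · rw [if_pos rfl]
        exact ratio_Ra hkl' t
      · rw [if_neg one_ne_zero]
        exact ratio_Rb hkl' t
  | L' => show (1 : ℂ) = 1 * 1; ring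
  | R' => show (1 : ℂ) = 1 * 1; ring

lemma Ew_add {n : ℕ} {t : ℂ} (ht : n * ‖t‖ ≤ 1 / 4) (w : List Letter) :
    ∀ (s : ℕ) (ν b : ℕ →₀ ℕ), (∀ j, ν j + 1 < n) → Al w s ν → (∀ j, b j ≤ 1) → Al w s b →
      Ew δ n t w s (ν + b) = Ew δ n t w s ν * Qf δ n t w s b ν := by
  induction w with
  | nil => intro s ν b _ _ _ _; show (1 : ℂ) = 1 * 1; ring
  | cons x w ih =>
    intro s ν b hν hA hb hB
    show exx δ n t x ((ν + b) s) ((ν + b) (s + 1)) * Ew δ n t w (s + 1) (ν + b)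
      = (exx δ n t x (ν s) (ν (s + 1)) * Ew δ n t w (s + 1) ν)
        * (rt δ n t x (b s) (b (s + 1)) (ν s) (ν (s + 1)) * Qf δ n t w (s + 1) b ν)
    rw [ih (s + 1) ν b hν hA.2 hb hB.2, Finsupp.add_apply, Finsupp.add_apply,
      exx_ratio (hν s) (hν (s + 1)) ht x hA.1 (hb s) (hb (s + 1)) hB.1]
    ring

section particles

set_option linter.unusedSectionVars false

variable {ι : Type} [DecidableEq ι] {P : ι → MvPolynomial ℕ ℂ} {w : List Letter}

/-- linear multipliers -/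
lemma op_lin {n m s : ℕ} (hn : n = m + 1) {t : ℂ} {Λ : ℝ} (hΛ : 1 ≤ Λ) {E : (ℕ →₀ ℕ) → ℂ}
    (hG : Good (St w) P E m s Λ) (hP : ∀ i, ∀ b ∈ (P i).support, b ∈ St w)
    {a b c : ℝ} (ha : |a| ≤ 1) (hb : |b| ≤ 1) (hc : |c| ≤ 2 * n)
    (i j : ℕ) :
    Op (St w) P E m s (fun ν => ln t a b c (ν i) (ν j)) (4 * n * Λ * ‖t‖) := by
  have hA : ∀ b ∈ St w, ∀ j, b j ≤ 1 := fun b hb => hb.1
  have h1 := op_mul (op_const (A := St w) (P := P) (E := E) (m := m) s (a : ℂ))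
    (op_coord hG hΛ hA hP i) (by positivity)
  have h2 := op_mul (op_const (A := St w) (P := P) (E := E) (m := m) s (b : ℂ))
    (op_coord hG hΛ hA hP j) (by positivity)
  have h3 := op_const (A := St w) (P := P) (E := E) (m := m) s (c : ℂ)
  have h4 := op_mul (op_add (op_add h1 h2) h3)
    (op_const (A := St w) (P := P) (E := E) (m := m) s t) (norm_nonneg t)
  refine op_mono (op_fun_congr h4 (fun ν => ?_)) ?_
  · unfold ln
    push_cast
    ring
  · have ht := norm_nonneg t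
    apply mul_le_mul_of_nonneg_right _ ht
    rw [Complex.norm_real, Complex.norm_real, Complex.norm_real, Real.norm_eq_abs,
      Real.norm_eq_abs, Real.norm_eq_abs]
    have hm : (n : ℝ) = m + 1 := by rw [hn]; push_cast; ring
    have hm0 : (0 : ℝ) ≤ m := by positivity
    have hΛ0 : 0 ≤ Λ := by linarith
    calc |a| * (m * Λ) + |b| * (m * Λ) + |c|
        ≤ 1 * (m * Λ) + 1 * (m * Λ) + 2 * n := by gcongr
      _ ≤ 1 * (n * Λ) + 1 * (n * Λ) + 2 * (n * Λ) := by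
          have h5 : (m : ℝ) * Λ ≤ n * Λ := by rw [hm]; nlinarith
          have h6 : (n : ℝ) ≤ n * Λ := by
            have : (0 : ℝ) ≤ n := by positivity
            nlinarith
          gcongr
      _ = _ := by ring

lemma near_rt (hδ : 0 ≤ δ ∧ δ ≤ 1) {n m s : ℕ} (hn : n = m + 1) (hm1 : 1 ≤ m) {t : ℂ} {Λ τ : ℝ} (hΛ : 1 ≤ Λ) {E : (ℕ →₀ ℕ) → ℂ}
    (hG : Good (St w) P E m s Λ) (hP : ∀ i, ∀ b ∈ (P i).support, b ∈ St w)
    (hE : ∀ r ≤ m, ∀ ν ∈ Adm (St w) r, E ν ≠ 0) (hτ0 : 4 * n * Λ * ‖t‖ ≤ τ)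
    (hτ : τ ≤ 1 / 4) (x : Letter) (a b : ℕ) (i j : ℕ) :
    Near (St w) P E m s (fun ν => rt δ n t x a b (ν i) (ν j)) (7 * τ) := by
  have hτp : 0 ≤ τ := le_trans (by positivity) hτ0
  have hn1 : (2 : ℝ) ≤ n := by
    have : 2 ≤ n := by omega
    exact_mod_cast this
  obtain ⟨hδ0, hδ1⟩ := hδ
  have k4 : |(1 : ℝ)| ≤ 1 := by rw [abs_one]
  have k4' : |(-1 : ℝ)| ≤ 1 := by rw [abs_neg, abs_one]
  have k0 : |(0 : ℝ)| ≤ 1 := by rw [abs_zero]; norm_num
  have c1 : |(1 : ℝ)| ≤ 2 * n := by rw [abs_one]; linarith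
  have c2 : |-((n : ℝ) - 1 - δ)| ≤ 2 * n := by rw [abs_le]; constructor <;> linarith
  have c2' : |-δ| ≤ 2 * n := by rw [abs_le]; constructor <;> linarith
  have c4 : |1 - 2 * ((n : ℝ) - 1 - δ)| ≤ 2 * n := by rw [abs_le]; constructor <;> linarith
  have c4' : |1 - 2 * δ| ≤ 2 * n := by rw [abs_le]; constructor <;> linarith
  have c5 : |(n : ℝ) - 1| ≤ 2 * n := by rw [abs_le]; constructor <;> linarith
  have lin : ∀ {a b c : ℝ}, |a| ≤ 1 → |b| ≤ 1 → |c| ≤ 2 * n →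
      Op (St w) P E m s (fun ν => ln t a b c (ν i) (ν j)) τ := fun ha hb hc =>
    op_mono (op_lin hn hΛ hG hP ha hb hc i j) hτ0
  have nS : ∀ {a b c : ℝ}, |a| ≤ 1 → |b| ≤ 1 → |c| ≤ 2 * n →
      Near (St w) P E m s (fun ν => sc (ln t a b c (ν i) (ν j))) τ := fun ha hb hc =>
    near_sc hτp (by linarith) (lin ha hb hc) hP
  have nE : ∀ {a b c : ℝ}, |a| ≤ 1 → |b| ≤ 1 → |c| ≤ 2 * n →
      Near (St w) P E m s (fun ν => Complex.exp (Complex.I * ln t a b c (ν i) (ν j))) τ :=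
    fun ha hb hc => near_exp hτp (op_mono
      (op_mul (op_const (A := St w) (P := P) (E := E) (m := m) s Complex.I) (lin ha hb hc) hτp)
      (by simp)) hP
  have nE' : ∀ {a b c : ℝ}, |a| ≤ 1 → |b| ≤ 1 → |c| ≤ 2 * n →
      Near (St w) P E m s (fun ν => Complex.exp (-Complex.I * ln t a b c (ν i) (ν j))) τ :=
    fun ha hb hc => near_exp hτp (op_mono
      (op_mul (op_const (A := St w) (P := P) (E := E) (m := m) s (-Complex.I)) (lin ha hb hc) hτp)
      (by simp)) hP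
  have nSi : ∀ {a b c : ℝ}, |a| ≤ 1 → |b| ≤ 1 → |c| ≤ 2 * n →
      Near (St w) P E m s (fun ν => (sc (ln t a b c (ν i) (ν j)))⁻¹) (2 * τ) := fun ha hb hc =>
    near_inv hτp hτ (nS ha hb hc) hP hE
  have none : Near (St w) P E m s (fun _ => 1) (7 * τ) :=
    near_mono (near_const_one s) (by positivity)
  have t2 : 0 ≤ 2 * τ := by positivity
  cases x with
  | L =>
    show Near (St w) P E m s (fun ν => if b = 0 then 1 else if a = 0 then qLa δ n t (ν i) (ν j)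
      else qLb δ n t (ν i) (ν j)) (7 * τ)
    by_cases hb : b = 0
    · simp only [if_pos hb]; exact none
    simp only [if_neg hb]
    by_cases ha : a = 0
    · simp only [if_pos ha]
      refine near_mono (near_mul (nE' k4 k0 c2') (near_mul (nS k0 k4 c1) (near_mul (nS k0 k4' c5)
        (nSi k4' k4 c1) t2) (by positivity)) (by positivity)) ?_
      linarith
    · simp only [if_neg ha]
      refine near_mono (near_mul (nE' k4 k4 c4') (near_mul (near_mul (nS k0 k4 c1) (nSi k4 k0 c1) t2)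
        (near_mul (nS k0 k4' c5) (nSi k4' k0 c5) t2) (by positivity)) (by positivity)) ?_
      linarith
  | R =>
    show Near (St w) P E m s (fun ν => if a = 0 then 1 else if b = 0 then qRa δ n t (ν i) (ν j)
      else qRb δ n t (ν i) (ν j)) (7 * τ)
    by_cases ha : a = 0
    · simp only [if_pos ha]; exact none
    simp only [if_neg ha]
    by_cases hb : b = 0
    · simp only [if_pos hb]
      refine near_mono (near_mul (nE k0 k4 c2) (nSi k4 k4' c1) t2) ?_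
      linarith
    · simp only [if_neg hb]
      refine near_mono (nE k4 k4 c4) ?_
      linarith
  | L' => exact none
  | R' => exact none

lemma near_Qf (hδ : 0 ≤ δ ∧ δ ≤ 1) {n m s : ℕ} (hn : n = m + 1) (hm1 : 1 ≤ m) {t : ℂ} {Λ τ : ℝ} (hΛ : 1 ≤ Λ) {E : (ℕ →₀ ℕ) → ℂ}
    (hG : Good (St w) P E m s Λ) (hP : ∀ i, ∀ b ∈ (P i).support, b ∈ St w)
    (hE : ∀ r ≤ m, ∀ ν ∈ Adm (St w) r, E ν ≠ 0) (hτ0 : 4 * n * Λ * ‖t‖ ≤ τ)
    (hτ : τ ≤ 1 / 4) (v : List Letter) :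
    ∀ (k : ℕ) (b : ℕ →₀ ℕ), Near (St w) P E m s (fun ν => Qf δ n t v k b ν) (7 * τ * v.length) := by
  have hτp : 0 ≤ τ := le_trans (by positivity) hτ0
  induction v with
  | nil =>
    intro k b
    refine near_mono (near_const_one s) ?_
    simp
  | cons x v ih =>
    intro k b
    refine near_mono (near_mul (near_rt hδ hn hm1 hΛ hG hP hE hτ0 hτ x (b k) (b (k + 1)) k (k + 1))
      (ih (k + 1) b) (by positivity)) ?_
    rw [List.length_cons]
    push_cast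
    linarith

/-- **All numbers of particles.** -/
lemma good_all (hδ : 0 ≤ δ ∧ δ ≤ 1) {n m : ℕ} (hn : n = m + 1) (hm1 : 1 ≤ m) {t : ℂ} {Λ0 : ℝ} (hΛ0 : 1 ≤ Λ0)
    (hP : ∀ i, ∀ b ∈ (P i).support, b ∈ St w)
    (hN : ∀ i, 0 < ∑ b ∈ (P i).support, ‖coeff b (P i)‖ ∧
      ∑ b ∈ (P i).support, ‖coeff b (P i)‖ ≤ Λ0 * ‖∑ b ∈ (P i).support, coeff b (P i)‖)
    (hw : 1 ≤ w.length)
    (ht : 336 * (n * ‖t‖) * Λ0 ^ 2 * w.length ≤ 1) (s : ℕ) :
    Good (St w) P (Ew δ n t w 0) m s (3 * Λ0) := by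
  have hw' : (1 : ℝ) ≤ w.length := by exact_mod_cast hw
  have hnt : 0 ≤ n * ‖t‖ := by positivity
  have hΛ2 : Λ0 ≤ Λ0 ^ 2 := by nlinarith
  have hΛ21 : 1 ≤ Λ0 ^ 2 := by nlinarith
  have ht1 : n * ‖t‖ ≤ 1 / 4 := by
    have h1 : 4 * (n * ‖t‖) ≤ 336 * (n * ‖t‖) * Λ0 ^ 2 * w.length := by
      calc 4 * (n * ‖t‖) ≤ 336 * (n * ‖t‖) := by nlinarith
        _ = 336 * (n * ‖t‖) * 1 * 1 := by ring
        _ ≤ _ := by gcongr
    linarith
  have hE : ∀ r ≤ m, ∀ ν ∈ Adm (St w) r, Ew δ n t w 0 ν ≠ 0 := by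
    intro r hr ν hν
    apply Ew_ne ht1
    intro j
    have := adm_coord (A := St w) (fun b hb => hb.1) hν j
    omega
  induction s with
  | zero => exact good_zero hE _
  | succ s ih =>
    set τ := 4 * n * (3 * Λ0) * ‖t‖ with hτ
    have hτp : 0 ≤ τ := by positivity
    have hδτ : 7 * τ * w.length ≤ 1 / (4 * Λ0) := by
      rw [le_div_iff₀ (by positivity)]
      calc 7 * τ * w.length * (4 * Λ0) = 336 * (n * ‖t‖) * Λ0 ^ 2 * w.length := by
            rw [hτ]; ring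
        _ ≤ 1 := ht
    have h4 : 1 / (4 * Λ0) ≤ 1 / 4 := by
      apply one_div_le_one_div_of_le (by norm_num)
      linarith
    have hτ4 : τ ≤ 1 / 4 := by
      have : τ ≤ 7 * τ * w.length := by nlinarith
      linarith
    apply good_step (θ := Real.exp (1 / (4 * Λ0)) - 1) hΛ0 _ hP _ hN ih
    · have hx0 : (0 : ℝ) < 1 / (4 * Λ0) := by positivity
      have h5 : Real.exp (1 / (4 * Λ0)) ≤ 1 + 2 * (1 / (4 * Λ0)) := by
        set x := 1 / (4 * Λ0)
        have h := Real.one_sub_le_exp_neg x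
        rw [Real.exp_neg] at h
        have hp := Real.exp_pos x
        rw [le_inv_comm₀ (by linarith) hp] at h
        refine h.trans ?_
        rw [inv_le_iff_one_le_mul₀ (by linarith)]
        nlinarith
      have e : 1 / (2 * Λ0) = 2 * (1 / (4 * Λ0)) := by field_simp; ring
      rw [e]; linarith
    · intro b hb
      refine ⟨Qf δ n t w 0 b, ?_, ?_⟩
      · intro r hr ν hν
        apply Ew_add ht1 w 0 ν b _ (adm_Al hν) hb.1 hb.2
        intro j
        have := adm_coord (A := St w) (fun b hb => hb.1) hν j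
        omega
      · have h5 := near_Qf hδ hn hm1 (by linarith : (1 : ℝ) ≤ 3 * Λ0) ih hP hE le_rfl hτ4 w 0 b
        have h6 := near_mono h5 hδτ
        have h7 := h6 (fun _ => 1) 1 (by norm_num) (bd_one s)
        simpa using h7

end particles

end

end Pool.Agent.H759.QP
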