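import Pool.Graph.R_pool_sql_team_seeded_843ab51a.H239.TV.Tr
import Pool.Graph.R_pool_sql_team_seeded_843ab51a.H239.TV.Str
import Pool.Agent.H759.QP.Low

/-!
A level of the highest weight vectors bounds the sum of the invariants over the colours of the axis
from below: all words, strands coloured `b`; full twists act by scalars of absolute value one.
-/

set_option autoImplicit false

namespace Pool.Agent.H759.QP

open Finset Matrix
open Pool.Agent.H550R3.Jones (br brf)
open Pool.Agent.W707.TV (vh)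
open Pool.Agent.Y482.CY (B3 lv dl tri Nz LL UU)
open Pool.Agent.Y481.CC (tauW trW TW CM LI UI HT)
open Pool.Agent.Y482.CW (Col rp tg ta cols tvw inb Ok sw swW half)
open Pool.Agent.Y80.CY (vh_prim vh_ne vh_norm vh_br FF)
open Pool.Agent.H239.TV (td td_anti patlow tauW_zero f_TRCW ta_word)
open Pool.Agent.R807.TQ (mw wl)
open scoped Real Topology

/-- the matrices of size `M ≥ b` -/
lemma ta_gen' {K b m : ℕ} (hbK : b ≤ K) {v : ℂ} (hv : v ≠ 0) (hN : Nz v (2 * K))
    (w : List (Bool × Bool)) :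
    ta K w (b, (b, b)) v m = tauW w.reverse b v m := by
  have h1 := Pool.Agent.Y182.CW.t_CNV v hv K hN w (b, (b, b)) m ⟨hbK, hbK, hbK⟩
    (Pool.Agent.Y672.CW.swW_diag _ b)
  have h2 := Pool.Agent.Y182.CW.t_CNV v hv b (fun l h0 h => hN l h0 (by omega)) w (b, (b, b)) m
    ⟨le_rfl, le_rfl, le_rfl⟩ (Pool.Agent.Y672.CW.swW_diag _ b)
  rw [h1, ← h2, ta_word]

lemma FF_eq' {v : ℂ} (hv : v ≠ 0) (hn : ‖v‖ = 1) {w : List (Bool × Bool)} {M b : ℕ} (hb : 1 ≤ b)
    (hbM : b ≤ M) (hz : Nz v (2 * M)) (a : ℕ) (ha : 1 ≤ a) (haM : a ≤ M) :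
    ‖FF v b (td w.reverse b v) a‖ = ‖br v (a : ℤ) * tg M w a (b, (b, b)) v‖ := by
  obtain ⟨K, hK⟩ : ∃ K, 3 * b = K + 3 := ⟨3 * b - 3, by omega⟩
  set S := ∑ m ∈ range (K + 1), v ^ (-(2 * (a : ℤ) * m)) * tauW w.reverse b v m with hS
  have h0 : ∀ m, 3 * (b - 1) < m → tauW w.reverse b v m = 0 := fun m hm => tauW_zero _ b v m hm
  have h1 : tg M w a (b, (b, b)) v = v ^ (3 * ((b : ℤ) - 1)) * S := by
    rw [Pool.Agent.Y514.CW.axw v hv M w a (b, (b, b)) (fun l h1 h2 => hz l h1 (by omega)) ha haM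
      ⟨hbM, hbM, hbM⟩]
    simp only [ta_gen' hbM hv hz]
    rw [hS, Finset.mul_sum]
    symm
    apply Finset.sum_subset_zero_on_sdiff
    · intro x hx
      rw [Finset.mem_range] at hx ⊢
      omega
    · intro x hx
      rw [Finset.mem_sdiff, Finset.mem_range, Finset.mem_range] at hx
      rw [h0 x (by omega), mul_zero]
    · intro x _
      rw [← mul_assoc, ← zpow_add₀ hv]
      congr 2
      ring
  have h2 : FF v b (td w.reverse b v) a =
      v ^ ((a : ℤ) * (3 * (b : ℤ) - 2)) * (S - v ^ (-(2 * (a : ℤ))) * S) := by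
    unfold FF
    have h3 : 3 * b - 1 = K + 1 + 1 := by omega
    have h4 : ∀ m : ℕ, v ^ ((a : ℤ) * (3 * (b : ℤ) - 2 - 2 * m)) * td w.reverse b v m =
        v ^ ((a : ℤ) * (3 * (b : ℤ) - 2)) * (v ^ (-(2 * (a : ℤ) * m)) * tauW w.reverse b v m) -
        v ^ ((a : ℤ) * (3 * (b : ℤ) - 2)) * (v ^ (-(2 * (a : ℤ) * m)) *
          (if m = 0 then 0 else tauW w.reverse b v (m - 1))) := by
      intro m
      have h5 : (a : ℤ) * (3 * (b : ℤ) - 2 - 2 * m) =
          (a : ℤ) * (3 * (b : ℤ) - 2) + -(2 * (a : ℤ) * m) := by ring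
      rw [h5, zpow_add₀ hv, td]
      ring
    rw [Finset.sum_congr rfl fun m _ => h4 m, Finset.sum_sub_distrib, ← Finset.mul_sum,
      ← Finset.mul_sum, ← mul_sub, h3]
    congr 2
    · rw [Finset.sum_range_succ, h0 (K + 1) (by omega), mul_zero, add_zero]
    · rw [Finset.sum_range_succ', if_pos rfl, mul_zero, add_zero, hS, Finset.mul_sum]
      refine Finset.sum_congr rfl fun m _ => ?_
      rw [if_neg (by omega), Nat.add_sub_cancel, ← mul_assoc, ← zpow_add₀ hv]
      congr 2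
      push_cast
      ring
  have h6 : S - v ^ (-(2 * (a : ℤ))) * S = v ^ (-(a : ℤ)) * (br v (a : ℤ) * S) := by
    have h7 : v ^ (-(a : ℤ)) * (br v (a : ℤ) * S) =
        (v ^ (-(a : ℤ)) * v ^ (a : ℤ)) * S - (v ^ (-(a : ℤ)) * v ^ (-(a : ℤ))) * S := by
      unfold br
      ring
    rw [h7, ← zpow_add₀ hv, ← zpow_add₀ hv, neg_add_cancel, zpow_zero, one_mul]
    congr 3
    ring
  rw [h2, h1, h6]
  simp only [norm_mul, norm_zpow, hn, _root_.one_zpow, one_mul]

/-- **A level bounds the sum of the invariants from below.** -/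
theorem TW_sum (w : List (Bool × Bool)) {M b m0 : ℕ} (hb : 1 ≤ b) (hbM : b ≤ M)
    (hbM' : 3 * b - 2 < 2 * M + 1) (hm : m0 < b) :
    ‖TW w.reverse b m0 (vh M)‖ ≤
      ∑ a ∈ Icc 1 M, ‖br (vh M) (a : ℤ) * tg M w a (b, (b, b)) (vh M)‖ := by
  have hnz : ∀ k, k ≤ 2 * M → Nz (vh M) k := fun k hk l hl0 hl => vh_br M l hl0 (by omega)
  have hineq := main_ineq' (m0 := m0) hb hbM' (by omega) (vh_prim M) (vh_ne M) (vh_norm M)
    (td_anti (vh_ne M) (w := w.reverse) hb (hnz _ (by omega)))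
  have htd : td w.reverse b (vh M) m0 = TW w.reverse b m0 (vh M) := by
    rw [f_TRCW (vh M) (vh_ne M) w.reverse b m0 (hnz m0 (by omega)), td,
      patlow (vh M) w.reverse b m0 hm (hnz _ (by omega))]
    split_ifs with h0
    · rfl
    · rw [patlow (vh M) w.reverse b (m0 - 1) (by omega) (hnz _ (by omega))]
  rw [htd] at hineq
  have hsum : ∑ a ∈ Icc 1 M, ‖FF (vh M) b (td w.reverse b (vh M)) a‖ =
      ∑ a ∈ Icc 1 M, ‖br (vh M) (a : ℤ) * tg M w a (b, (b, b)) (vh M)‖ := by
    refine Finset.sum_congr rfl fun a ha => ?_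
    exact FF_eq' (vh_ne M) (vh_norm M) hb hbM (hnz _ le_rfl) a (Finset.mem_Icc.1 ha).1
      (Finset.mem_Icc.1 ha).2
  rw [hsum] at hineq
  have hMr : (1 : ℝ) ≤ M := by exact_mod_cast (hb.trans hbM)
  have h5 : 0 ≤ ‖TW w.reverse b m0 (vh M)‖ := norm_nonneg _
  nlinarith

/-! ### Full twists -/

lemma blk_reverse (n : ℕ) (s : Bool) : (List.replicate n
    [(false, s), (true, s), (false, s)]).flatten.reverse =
    (List.replicate n [(false, s), (true, s), (false, s)]).flatten := by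
  rw [List.reverse_flatten, List.map_replicate, List.reverse_replicate]
  rfl

lemma full_prod {v : ℂ} (hv : v ≠ 0) (hn : ‖v‖ = 1) {b m : ℕ} (hN : Nz v m) (j : ℤ) :
    ∃ ω : ℂ, ‖ω‖ = 1 ∧ ((half (2 * j)).reverse.map (CM b m v)).prod =
      ω • (1 : Matrix (Fin (m + 1)) (Fin (m + 1)) ℂ) := by
  obtain ⟨l1, l2, u1, u2⟩ := Pool.Agent.Y548.CC.lui v hv b m hN
  have hht := Pool.Agent.Y876.CC.ht Pool.Agent.Y548.CC.lui v hv b m hN
  have hsq := Pool.Agent.H239.TV.HT_sq hv b m
  obtain ⟨ω, hω, hω1⟩ : ∃ ω : ℂ, ‖ω‖ = 1 ∧ HT b m v * HT b m v =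
      ω • (1 : Matrix (Fin (m + 1)) (Fin (m + 1)) ℂ) :=
    ⟨_, by rw [norm_zpow, hn, _root_.one_zpow], hsq⟩
  have hω0 : ω ≠ 0 := by
    intro h
    rw [h, norm_zero] at hω
    exact zero_ne_one hω
  have hY : (LI b m v * UU b m v * LI b m v) * HT b m v = 1 := by
    rw [← hht]
    calc (LI b m v * UU b m v * LI b m v) * (LL b m v * UI b m v * LL b m v)
        = LI b m v * UU b m v * (LI b m v * LL b m v) * UI b m v * LL b m v := by noncomm_ring
      _ = LI b m v * (UU b m v * UI b m v) * LL b m v := by rw [l2]; noncomm_ring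
      _ = 1 := by rw [u1, mul_one, l2]
  set X := HT b m v with hX
  set Y := LI b m v * UU b m v * LI b m v with hYd
  have hY2 : Y * Y = ω⁻¹ • (1 : Matrix (Fin (m + 1)) (Fin (m + 1)) ℂ) := by
    have h1 : Y * Y * (X * X) = 1 := by
      calc Y * Y * (X * X) = Y * (Y * X) * X := by noncomm_ring
        _ = 1 := by rw [hY, mul_one, hY]
    rw [hω1, mul_smul_comm, mul_one] at h1
    rw [← h1, smul_smul, inv_mul_cancel₀ hω0, one_smul]
  have hrep : ∀ (s : Bool) (n : ℕ), (((List.replicate n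
      [(false, s), (true, s), (false, s)]).flatten).map (CM b m v)).prod =
      (CM b m v (false, s) * CM b m v (true, s) * CM b m v (false, s)) ^ n := by
    intro s n
    induction n with
    | zero => simp
    | succ n ih =>
      rw [List.replicate_succ, List.flatten_cons, List.map_append, List.prod_append, ih, pow_succ']
      simp [mul_assoc]
  have hhalf : half (2 * j) = (List.replicate (2 * j).natAbs
      [(false, decide (0 ≤ 2 * j)), (true, decide (0 ≤ 2 * j)), (false, decide (0 ≤ 2 * j))]).flatten :=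
    rfl
  have hab : (2 * j).natAbs = 2 * j.natAbs := by omega
  rw [hhalf, blk_reverse, hrep, hab, pow_mul]
  by_cases h : 0 ≤ 2 * j
  · have e : CM b m v (false, decide (0 ≤ 2 * j)) * CM b m v (true, decide (0 ≤ 2 * j)) *
        CM b m v (false, decide (0 ≤ 2 * j)) = Y := by
      simp [CM, h, hYd]
    rw [e, sq, hY2, smul_pow, one_pow]
    exact ⟨ω⁻¹ ^ j.natAbs, by rw [norm_pow, norm_inv, hω, inv_one, one_pow], rfl⟩
  · have e : CM b m v (false, decide (0 ≤ 2 * j)) * CM b m v (true, decide (0 ≤ 2 * j)) *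
        CM b m v (false, decide (0 ≤ 2 * j)) = X := by
      rw [← hht]
      simp [CM, h]
    rw [e, sq, hω1, smul_pow, one_pow]
    exact ⟨ω ^ j.natAbs, by rw [norm_pow, hω, one_pow], rfl⟩

lemma wl_prod (b m : ℕ) (v : ℂ) (u : List Bool) :
    ((wl u).reverse.map (CM b m v)).prod = mw b m v u := by
  induction u with
  | nil => rfl
  | cons s u ih =>
    have e1 : (wl (s :: u)).reverse = (wl u).reverse ++ [(s, s)] := by
      simp [wl]
    have e2 : mw b m v (s :: u) = mw b m v u * (if s then UU b m v else LL b m v) := rfl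
    rw [e1, List.map_append, List.prod_append, ih, e2]
    cases s <;> simp [CM]

/-- full twists do not change the absolute value of the traces -/
theorem TW_full {v : ℂ} (hv : v ≠ 0) (hn : ‖v‖ = 1) {b m : ℕ} (hN : Nz v m) (j : ℤ)
    (u : List Bool) :
    ‖TW (half (2 * j) ++ wl u).reverse b m v‖ = ‖(mw b m v u).trace‖ := by
  obtain ⟨ω, hω, h⟩ := full_prod hv hn (b := b) hN j
  unfold TW
  rw [List.reverse_append, List.map_append, List.prod_append, h, wl_prod, mul_smul_comm, mul_one,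
    Matrix.trace_smul, norm_smul, hω, one_mul]

end Pool.Agent.H759.QP
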