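import Pool.Agent.H759.QP.Entry
import Pool.Agent.H759.QP.Tw

/-!
Lower bound of the Turaev-Viro invariants.
-/

set_option autoImplicit false

namespace Pool.Agent.H759.QP

open Finset
open Pool.Agent.H550R3.Jones (br brf)
open Pool.Agent.Y482.CY (LL UU sb Nz)
open Pool.Agent.Y482.CW (tg ta tvw cols Col half)
open Pool.Agent.R807.TQ (mw wl)
open Pool.Agent.W707.TV (vh)
open Pool.Agent.H759.KP (dg dg_ge sw sw_mem mt_append mt_RL)

noncomputable section

/-! ### The words -/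

/-- `∏ s_2^a s_1^{-b}` -/
def aw (P : List (ℕ × ℕ)) : List Bool :=
  P.flatMap fun p => List.replicate p.1 true ++ List.replicate p.2 false

/-- the syllables -/
def fl (P : List (ℕ × ℕ)) : List ℕ := P.flatMap fun p => [p.1, p.2]

/-- the product `∏ (1 + a b)` -/
def DD (P : List (ℕ × ℕ)) : ℝ := (P.map fun p => 1 + (p.1 : ℝ) * p.2).prod

lemma fl_cons (p : ℕ × ℕ) (P : List (ℕ × ℕ)) : fl (p :: P) = p.1 :: p.2 :: fl P := by
  simp [fl]

lemma fl_length (P : List (ℕ × ℕ)) : (fl P).length = 2 * P.length := by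
  induction P with
  | nil => rfl
  | cons p P ih => rw [fl_cons, List.length_cons, List.length_cons, ih, List.length_cons]; ring

lemma fl_mem {A : ℕ} {P : List (ℕ × ℕ)} (h : ∀ p ∈ P, (1 ≤ p.1 ∧ p.1 ≤ A) ∧ 1 ≤ p.2 ∧ p.2 ≤ A) :
    ∀ a ∈ fl P, 1 ≤ a ∧ a ≤ A := by
  intro a ha
  unfold fl at ha
  rw [List.mem_flatMap] at ha
  obtain ⟨p, hp, ha⟩ := ha
  have := h p hp
  simp only [List.mem_cons, List.not_mem_nil, or_false] at ha
  rcases ha with rfl | rfl
  · exact this.1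
  · exact this.2

lemma lw_aw (P : List (ℕ × ℕ)) : lw (aw P) = sw true (fl P) := by
  induction P with
  | nil => rfl
  | cons p P ih =>
    have e1 : aw (p :: P) = (List.replicate p.1 true ++ List.replicate p.2 false) ++ aw P := by
      simp [aw]
    rw [e1, fl_cons]
    unfold lw at ih ⊢
    rw [List.map_append, List.map_append, List.map_replicate, List.map_replicate, ih,
      List.append_assoc]
    rfl

lemma DD_cons (p : ℕ × ℕ) (P : List (ℕ × ℕ)) :
    DD (p :: P) = (1 + (p.1 : ℝ) * p.2) * DD P := by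
  unfold DD
  rw [List.map_cons, List.prod_cons]

lemma DD_ge {P : List (ℕ × ℕ)} (h : ∀ p ∈ P, 1 ≤ p.1 ∧ 1 ≤ p.2) :
    (2 : ℝ) ^ P.length ≤ DD P := by
  induction P with
  | nil => simp [DD]
  | cons p P ih =>
    have h1 := ih (fun q hq => h q (List.mem_cons_of_mem _ hq))
    obtain ⟨a1, b1⟩ := h p List.mem_cons_self
    have ha : (1 : ℝ) ≤ p.1 := by exact_mod_cast a1
    have hb : (1 : ℝ) ≤ p.2 := by exact_mod_cast b1
    have hab : 1 ≤ (p.1 : ℝ) * p.2 := by nlinarith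
    rw [DD_cons, List.length_cons, pow_succ, mul_comm]
    have : (0 : ℝ) < 2 ^ P.length := by positivity
    apply mul_le_mul (by linarith) h1 this.le (by linarith)

lemma DD_dg (P : List (ℕ × ℕ)) : DD P ≤ dg (sw true (fl P)) := by
  have key : ∀ P : List (ℕ × ℕ), DD P ≤ (PTB.mt (sw true (fl P))).2.2 := by
    intro P
    induction P with
    | nil => simp [DD, fl, sw, PTB.mt]
    | cons p P ih =>
      rw [fl_cons, DD_cons]
      have e : sw true (p.1 :: p.2 :: fl P)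
          = (List.replicate p.1 PTB.Letter.R ++ List.replicate p.2 PTB.Letter.L)
            ++ sw true (fl P) := by
        show List.replicate p.1 PTB.Letter.R ++ (List.replicate p.2 PTB.Letter.L
          ++ sw true (fl P)) = _
        rw [List.append_assoc]
      have hm : ∀ x ∈ List.replicate p.1 PTB.Letter.R ++ List.replicate p.2 PTB.Letter.L,
          x = PTB.Letter.L ∨ x = PTB.Letter.R := by
        intro x hx
        rcases List.mem_append.1 hx with h | h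
        · exact Or.inr (List.eq_of_mem_replicate h)
        · exact Or.inl (List.eq_of_mem_replicate h)
      obtain ⟨⟨_, p2, _, _⟩, _, _⟩ := PTB.mt_pos (sw_mem true (fl P))
      rw [e, (mt_append hm _).2.2.2, mt_RL]
      simp only
      have h1 : (0 : ℝ) ≤ p.1 * (PTB.mt (sw true (fl P))).1.2 := by positivity
      have h2 : (1 + (p.1 : ℝ) * p.2) * DD P ≤
          (1 + (p.2 : ℝ) * p.1) * (PTB.mt (sw true (fl P))).2.2 := by
        rw [mul_comm (p.1 : ℝ)]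
        exact mul_le_mul_of_nonneg_left ih (by positivity)
      linarith
  exact (key P).trans (le_max_right _ _)

/-! ### The colour of the strands -/

/-- the colour of the strands -/
def cb (M : ℕ) : ℕ := (M + 1) / 2 + 1

/-- the parameter -/
def dl (M : ℕ) : ℝ := if M % 2 = 0 then 1 / 4 else 3 / 4

lemma dl_mem (M : ℕ) : 0 ≤ dl M ∧ dl M ≤ 1 := by
  unfold dl
  split_ifs <;> norm_num

/-- the parameter `2 π / r` -/
def tt (M : ℕ) : ℝ := 2 * Real.pi / (2 * M + 1)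

lemma tt_pos (M : ℕ) : 0 < tt M := by
  unfold tt
  have := Real.pi_pos
  positivity

lemma vh_EE (M : ℕ) : vh M = EE (tt M) 1 := by
  rw [Pool.Agent.Y80.CY.vh_eq]
  unfold EE tt
  congr 1
  push_cast
  ring

lemma cb_eq (M : ℕ) :
    EE (tt M) (2 * ((cb M : ℝ) - 1)) = -EE (tt M) (2 * dl M - 1) := by
  have h1 : 2 * ((cb M : ℝ) - 1) = (2 * dl M - 1) + ((M : ℝ) + 1 / 2) := by
    unfold cb dl
    rcases Nat.even_or_odd' M with ⟨c, hc | hc⟩
    · rw [if_pos (by omega)]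
      have e1 : (M + 1) / 2 + 1 = c + 1 := by omega
      rw [e1, hc]
      push_cast
      ring
    · rw [if_neg (by omega)]
      have e1 : (M + 1) / 2 + 1 = c + 2 := by omega
      rw [e1, hc]
      push_cast
      ring
  rw [h1, EE_add]
  have h2 : EE (tt M) ((M : ℝ) + 1 / 2) = -1 := by
    unfold EE tt
    have h3 : Complex.I * ((2 * Real.pi / (2 * M + 1) : ℝ) : ℂ) * (((M : ℝ) + 1 / 2 : ℝ) : ℂ) =
        Real.pi * Complex.I := by
      have h4 : (2 * (M : ℂ) + 1) ≠ 0 := by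
        have : ((2 * M + 1 : ℕ) : ℂ) ≠ 0 := Nat.cast_ne_zero.2 (by omega)
        push_cast at this
        exact this
      push_cast
      field_simp
    rw [h3, Complex.exp_pi_mul_I]
  rw [h2]
  ring

/-- **Lower bound of the traces.** -/
theorem trace_ge {A : ℕ} (hA : 1 ≤ A) {P : List (ℕ × ℕ)} (hP : P ≠ [])
    (h : ∀ p ∈ P, (1 ≤ p.1 ∧ p.1 ≤ A) ∧ 1 ≤ p.2 ∧ p.2 ≤ A) {M n : ℕ} (hn : 1 ≤ n)
    (hM : 413800 * ((n : ℝ) + 1) * A ≤ 2 * M + 1) :
    DD P ^ n * Real.exp (-(P.length * ((n : ℝ) + 1) / 1500)) ≤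
      ‖(mw (cb M) n (vh M) (aw P)).trace‖ := by
  have hA0 : (1 : ℝ) ≤ A := by exact_mod_cast hA
  have hn0 : (1 : ℝ) ≤ n := by exact_mod_cast hn
  have hnM : n ≤ 2 * M := by
    have h1 : (n : ℝ) ≤ 2 * M := by nlinarith
    exact_mod_cast h1
  have hN : Nz (EE (tt M) 1) n := by
    rw [← vh_EE]
    intro l hl0 hl
    exact Pool.Agent.Y80.CY.vh_br M l hl0 (by omega)
  rw [vh_EE, bridge (tt_pos M).ne' hN (cb_eq M), lw_aw]
  have hk : 1 ≤ P.length := List.length_pos_of_ne_nil hP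
  have hpi := Real.pi_pos
  have hpi2 := Real.pi_lt_d6
  have hM0 : (0 : ℝ) < 2 * M + 1 := by positivity
  have ht : 65856 * (((n + 1 : ℕ) : ℝ) * ‖((tt M : ℝ) : ℂ)‖) * A ≤ 1 := by
    rw [Complex.norm_real, Real.norm_eq_abs, abs_of_pos (tt_pos M)]
    unfold tt
    rw [show 65856 * (((n + 1 : ℕ) : ℝ) * (2 * Real.pi / (2 * M + 1))) * (A : ℝ) =
      (131712 * Real.pi * ((n : ℝ) + 1) * A) / (2 * M + 1) by push_cast; ring,
      div_le_one hM0]
    refine le_trans ?_ hM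
    have : 131712 * Real.pi ≤ 413800 := by nlinarith
    gcongr
  have h1 := ft_lower (δ := dl M) (dl_mem M) (n := n + 1) (by omega) hA (s := true) hk
    (fl_length P) (fl_mem h) ht
  rw [Nat.add_sub_cancel] at h1
  refine le_trans ?_ h1
  push_cast
  have h2 := DD_dg P
  have h3 : 0 ≤ DD P := by
    have := DD_ge (P := P) (fun p hp => ⟨(h p hp).1.1, (h p hp).2.1⟩)
    have : (0 : ℝ) < 2 ^ P.length := by positivity
    linarith
  gcongr

/-- a colour bounds the invariant from below -/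
lemma tv_ge (w : List (Bool × Bool)) {M b : ℕ} (hM : 2 ≤ M) (hb : 1 ≤ b) (hbM : b ≤ M) {E : ℝ}
    (hE : 0 ≤ E) (h1 : E ≤ ∑ a ∈ Icc 1 M, ‖br (vh M) (a : ℤ) * tg M w a (b, (b, b)) (vh M)‖) :
    E ^ 2 ≤ (2 * M + 1) ^ 2 * tvw w (2 * M + 1) := by
  rw [Pool.Agent.Y672.CW.tvw_eq w hM]
  set r : ℝ := ((2 * M + 1 : ℕ) : ℝ) with hr
  have hr' : (2 * (M : ℝ) + 1) = r := by rw [hr]; push_cast; ring
  have hr0 : 0 < r := by positivity
  have hMr : 2 * (M : ℝ) ≤ r := by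
    rw [hr]
    push_cast
    linarith
  have hcs : (∑ a ∈ Icc 1 M, ‖br (vh M) (a : ℤ) * tg M w a (b, (b, b)) (vh M)‖) ^ 2 ≤
      (M : ℝ) * ∑ a ∈ Icc 1 M, ‖br (vh M) (a : ℤ) * tg M w a (b, (b, b)) (vh M)‖ ^ 2 := by
    have := sq_sum_le_card_mul_sum_sq (s := Icc 1 M)
      (f := fun a : ℕ => ‖br (vh M) (a : ℤ) * tg M w a (b, (b, b)) (vh M)‖)
    rwa [Nat.card_Icc, Nat.add_sub_cancel] at this
  have hsub : ∑ a ∈ Icc 1 M, ‖br (vh M) (a : ℤ) * tg M w a (b, (b, b)) (vh M)‖ ^ 2 ≤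
      ∑ a ∈ Icc 1 M, ∑ c ∈ cols w M,
        ‖br (vh M) (a : ℤ) * tg M w a c (vh M)‖ ^ 2 := by
    refine Finset.sum_le_sum fun a ha => ?_
    exact Finset.single_le_sum (f := fun c : Col =>
      ‖br (vh M) (a : ℤ) * tg M w a c (vh M)‖ ^ 2)
      (fun j _ => by positivity)
      (Pool.Agent.Y672.CW.mem_cols.2 ⟨⟨⟨hb, hbM⟩, ⟨hb, hbM⟩, ⟨hb, hbM⟩⟩,
        Pool.Agent.Y672.CW.swW_diag _ b⟩)
  set SS := ∑ a ∈ Icc 1 M, ∑ c ∈ cols w M,
    ‖br (vh M) (a : ℤ) * tg M w a c (vh M)‖ ^ 2 with hSS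
  have hSS0 : 0 ≤ SS := Finset.sum_nonneg fun _ _ => Finset.sum_nonneg fun _ _ => by positivity
  have hE1 : E ^ 2 ≤ (M : ℝ) * SS :=
    (pow_le_pow_left₀ hE h1 2).trans
      (hcs.trans (mul_le_mul_of_nonneg_left hsub (Nat.cast_nonneg M)))
  have hc1 : (1 : ℝ) ≤ ((cols w 2).card : ℝ) := by
    exact_mod_cast Pool.Agent.Y672.CW.card_cols_pos w
  rw [hr']
  have h9 : 1 / r * SS ≤ ((cols w 2).card : ℝ) * (1 / r * SS) := by
    have : 0 ≤ 1 / r * SS := by positivity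
    nlinarith
  have hM0 : (0 : ℝ) ≤ M := by positivity
  calc E ^ 2 ≤ (M : ℝ) * SS := hE1
    _ ≤ r * SS := mul_le_mul_of_nonneg_right (by linarith) hSS0
    _ = r ^ 2 * (1 / r * SS) := by field_simp
    _ ≤ _ := mul_le_mul_of_nonneg_left h9 (by positivity)

/-- **Lower bound of the invariants.** -/
theorem tv_lower {A : ℕ} (hA : 1 ≤ A) {P : List (ℕ × ℕ)} (hP : P ≠ [])
    (h : ∀ p ∈ P, (1 ≤ p.1 ∧ p.1 ≤ A) ∧ 1 ≤ p.2 ∧ p.2 ≤ A) (j : ℤ) {M n : ℕ} (hn : 1 ≤ n)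
    (hM : 413800 * ((n : ℝ) + 1) * A ≤ 2 * M + 1) :
    (DD P ^ n * Real.exp (-(P.length * ((n : ℝ) + 1) / 1500))) ^ 2 ≤
      (2 * M + 1) ^ 2 * tvw (half (2 * j) ++ wl (aw P)) (2 * M + 1) := by
  have hA0 : (1 : ℝ) ≤ A := by exact_mod_cast hA
  have hn0 : (1 : ℝ) ≤ n := by exact_mod_cast hn
  have hnM' : 100000 * n ≤ M := by
    have h1 : (100000 : ℝ) * n ≤ M := by nlinarith
    exact_mod_cast h1
  have h1 := trace_ge hA hP h hn hM
  have hb : 1 ≤ cb M := by unfold cb; omega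
  have hbM : cb M ≤ M := by unfold cb; omega
  have hbM' : 3 * cb M - 2 < 2 * M + 1 := by unfold cb; omega
  have hk : n < cb M := by unfold cb; omega
  have h2 := TW_sum (half (2 * j) ++ wl (aw P)) (M := M) (b := cb M) (m0 := n) hb hbM hbM' hk
  rw [TW_full (Pool.Agent.Y80.CY.vh_ne M) (Pool.Agent.Y80.CY.vh_norm M)
    (fun l hl0 hl => Pool.Agent.Y80.CY.vh_br M l hl0 (by omega)) j (aw P)] at h2
  refine tv_ge _ (by omega) hb hbM ?_ (h1.trans h2)
  have := DD_ge (P := P) (fun p hp => ⟨(h p hp).1.1, (h p hp).2.1⟩)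
  have : (0 : ℝ) < 2 ^ P.length := by positivity
  have : 0 ≤ DD P := by linarith
  positivity

end

end Pool.Agent.H759.QP
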